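import Pool.Agent.W78.GM.Defs

/-!
Project GM (helper78): basic facts on Gaussian integers, `nm`, `ps`, `prim`, `gp`, `ball`.
-/

set_option autoImplicit false

namespace Pool.Agent.W78.GM

open Finset Filter
open Pool.Agent.H376R2.MR Pool.Agent.H970R2.X
open GaussianInt (toComplex)

lemma nm_cast (z : GaussianInt) : (nm z : ℤ) = z.re ^ 2 + z.im ^ 2 := by
  unfold nm
  exact Int.natAbs_of_nonneg (by positivity)

lemma nm_castR (z : GaussianInt) : (nm z : ℝ) = (z.re : ℝ) ^ 2 + (z.im : ℝ) ^ 2 := by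
  have := nm_cast z
  exact_mod_cast this

lemma nm_eq_norm (z : GaussianInt) : nm z = (Zsqrtd.norm z).natAbs := by
  unfold nm
  rw [Zsqrtd.norm_def]
  congr 1
  ring

lemma toC_re (z : GaussianInt) : (toComplex z).re = (z.re : ℝ) := (GaussianInt.intCast_re z).symm

lemma toC_im (z : GaussianInt) : (toComplex z).im = (z.im : ℝ) := (GaussianInt.intCast_im z).symm

lemma nm_eq_norm_sq (z : GaussianInt) : (nm z : ℝ) = ‖toComplex z‖ ^ 2 := by
  rw [nm_castR, ← Complex.normSq_eq_norm_sq, Complex.normSq_apply, toC_re, toC_im]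
  ring

lemma norm_toComplex (z : GaussianInt) : ‖toComplex z‖ = Real.sqrt (nm z) := by
  rw [nm_eq_norm_sq, Real.sqrt_sq (norm_nonneg _)]

@[simp] lemma nm_zero : nm 0 = 0 := by simp [nm]

@[simp] lemma nm_one : nm 1 = 1 := by simp [nm]

lemma nm_eq_zero {z : GaussianInt} : nm z = 0 ↔ z = 0 := by
  constructor
  · intro h
    have h1 := nm_cast z
    rw [h] at h1
    have h2 : z.re = 0 := by
      have : z.re ^ 2 ≤ 0 := by have := sq_nonneg z.im; push_cast at h1; linarith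
      exact pow_eq_zero_iff two_ne_zero |>.1 (le_antisymm this (sq_nonneg _))
    have h3 : z.im = 0 := by
      have : z.im ^ 2 ≤ 0 := by have := sq_nonneg z.re; push_cast at h1; linarith
      exact pow_eq_zero_iff two_ne_zero |>.1 (le_antisymm this (sq_nonneg _))
    exact Zsqrtd.ext h2 h3
  · rintro rfl; exact nm_zero

lemma one_le_nm {z : GaussianInt} : 1 ≤ nm z ↔ z ≠ 0 := by
  rw [Nat.one_le_iff_ne_zero, ne_eq, nm_eq_zero]

lemma nm_mul (z u : GaussianInt) : nm (z * u) = nm z * nm u := by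
  rw [nm_eq_norm, nm_eq_norm, nm_eq_norm, Zsqrtd.norm_mul, Int.natAbs_mul]

lemma nm_pow (z : GaussianInt) (n : ℕ) : nm (z ^ n) = nm z ^ n := by
  induction n with
  | zero => simp
  | succ n ih => rw [pow_succ, nm_mul, ih, pow_succ]

lemma nm_star (z : GaussianInt) : nm (star z) = nm z := by
  simp [nm]

lemma nm_natCast (n : ℕ) : nm (n : GaussianInt) = n ^ 2 := by
  unfold nm
  simp [Int.natAbs_pow]

lemma nm_intCast (n : ℤ) : nm (n : GaussianInt) = n.natAbs ^ 2 := by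
  unfold nm
  simp [Int.natAbs_pow]

lemma star_mul_self' (z : GaussianInt) : star z * z = ((nm z : ℕ) : GaussianInt) := by
  have h := nm_cast z
  apply Zsqrtd.ext
  · simp [Zsqrtd.re_mul, h]
    ring
  · simp [Zsqrtd.im_mul]
    ring

lemma mul_star_self' (z : GaussianInt) : z * star z = ((nm z : ℕ) : GaussianInt) := by
  rw [mul_comm, star_mul_self']

lemma mem_ball {X : ℝ} {z : GaussianInt} : z ∈ ball X ↔ 1 ≤ nm z ∧ (nm z : ℝ) ≤ X := by
  unfold ball
  rw [mem_filter]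
  constructor
  · exact fun h => h.2
  · rintro ⟨h1, h2⟩
    refine ⟨?_, h1, h2⟩
    rw [mem_image]
    have h3 : nm z ≤ ⌊X⌋₊ := Nat.le_floor h2
    have h4 : (nm z : ℤ) ≤ ⌊X⌋₊ := by exact_mod_cast h3
    rw [nm_cast] at h4
    have key : ∀ x y : ℤ, x ^ 2 + y ^ 2 ≤ (⌊X⌋₊ : ℤ) → -(⌊X⌋₊ : ℤ) ≤ x ∧ x ≤ ⌊X⌋₊ := by
      intro x y h
      have h5 : x ≤ x ^ 2 := by
        rcases le_or_gt x 0 with hx | hx
        · have := sq_nonneg x; linarith
        · nlinarith
      have h6 : -x ≤ x ^ 2 := by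
        rcases le_or_gt x 0 with hx | hx
        · rcases eq_or_lt_of_le hx with h7 | h7
          · subst h7; simp
          · nlinarith
        · have := sq_nonneg x; linarith
      have h7 := sq_nonneg y
      constructor <;> linarith
    refine ⟨(z.re, z.im), ?_, rfl⟩
    rw [mem_product, mem_Icc, mem_Icc]
    refine ⟨key z.re z.im h4, key z.im z.re (by linarith)⟩

lemma mem_pball {X : ℝ} {z : GaussianInt} : z ∈ pball X ↔ prim z ∧ (nm z : ℝ) ≤ X := by
  unfold pball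
  rw [mem_filter, mem_ball]
  constructor
  · exact fun h => ⟨h.2, h.1.2⟩
  · rintro ⟨h1, h2⟩
    refine ⟨⟨?_, h2⟩, h1⟩
    rw [one_le_nm]
    rintro rfl
    simp [prim] at h1

lemma mem_ann {A B : ℝ} {z : GaussianInt} :
    z ∈ ann A B ↔ 1 ≤ nm z ∧ A < (nm z : ℝ) ∧ (nm z : ℝ) ≤ B := by
  unfold ann
  rw [mem_filter, mem_ball]
  tauto

lemma mem_win {Y : ℝ} {z : GaussianInt} :
    z ∈ win Y ↔ 1 ≤ nm z ∧ Y / Real.exp 2 ≤ (nm z : ℝ) ∧ (nm z : ℝ) ≤ Real.exp 2 * Y := by
  unfold win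
  rw [mem_filter, mem_ball]
  tauto

lemma prim_ne_zero {z : GaussianInt} (h : prim z) : z ≠ 0 := by
  rintro rfl
  simp [prim] at h

lemma toComplex_ne_zero {z : GaussianInt} (hz : z ≠ 0) : toComplex z ≠ 0 := by
  rwa [ne_eq, GaussianInt.toComplex_eq_zero]

lemma nm_pos {z : GaussianInt} (hz : z ≠ 0) : 0 < nm z := one_le_nm.2 hz

lemma nm_posR {z : GaussianInt} (hz : z ≠ 0) : (0 : ℝ) < nm z := by exact_mod_cast nm_pos hz

/-! ### the characters -/

lemma unit_eq_exp {z : GaussianInt} (hz : z ≠ 0) :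
    toComplex z / ((‖toComplex z‖ : ℝ) : ℂ) = Complex.exp ((ang z : ℂ) * Complex.I) := by
  have h := Complex.norm_mul_exp_arg_mul_I (toComplex z)
  have h0 : ((‖toComplex z‖ : ℝ) : ℂ) ≠ 0 := by
    simpa using toComplex_ne_zero hz
  unfold ang
  rw [div_eq_iff h0, mul_comm]
  exact h.symm

lemma ps_eq_exp {z : GaussianInt} (hz : z ≠ 0) (k : ℤ) :
    ps k z = Complex.exp (((k * ang z : ℝ) : ℂ) * Complex.I) := by
  unfold ps
  rw [unit_eq_exp hz, ← Complex.exp_int_mul]
  congr 1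
  push_cast
  ring

lemma norm_ps {z : GaussianInt} (hz : z ≠ 0) (k : ℤ) : ‖ps k z‖ = 1 := by
  rw [ps_eq_exp hz]
  exact Complex.norm_exp_ofReal_mul_I _

lemma norm_ps_le (z : GaussianInt) (k : ℤ) : ‖ps k z‖ ≤ 1 := by
  by_cases hz : z = 0
  · subst hz
    unfold ps
    by_cases hk : k = 0
    · subst hk; simp
    · simp [zero_zpow k hk]
  · exact (norm_ps hz k).le

@[simp] lemma ps_zero (z : GaussianInt) : ps 0 z = 1 := by simp [ps]

lemma ps_mul (k : ℤ) (z u : GaussianInt) : ps k (z * u) = ps k z * ps k u := by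
  unfold ps
  rw [← mul_zpow, map_mul, norm_mul]
  congr 1
  push_cast
  rw [div_mul_div_comm]

lemma ps_add {z : GaussianInt} (hz : z ≠ 0) (k l : ℤ) : ps (k + l) z = ps k z * ps l z := by
  unfold ps
  rw [zpow_add₀]
  have h0 : ((‖toComplex z‖ : ℝ) : ℂ) ≠ 0 := by
    simpa using toComplex_ne_zero hz
  exact div_ne_zero (toComplex_ne_zero hz) h0

lemma conj_ps {z : GaussianInt} (hz : z ≠ 0) (k : ℤ) : (starRingEnd ℂ) (ps k z) = ps (-k) z := by
  rw [ps_eq_exp hz, ps_eq_exp hz, ← Complex.exp_conj]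
  congr 1
  simp

lemma ps_star {z : GaussianInt} (hz : z ≠ 0) (k : ℤ) : ps k (star z) = ps (-k) z := by
  rw [← conj_ps hz]
  unfold ps
  rw [map_zpow₀, map_div₀, Complex.conj_ofReal, GaussianInt.toComplex_star, Complex.norm_conj]

lemma ps_natCast {c : ℕ} (hc : 0 < c) (k : ℤ) : ps k (c : GaussianInt) = 1 := by
  unfold ps
  have h : toComplex (c : GaussianInt) = (c : ℂ) := map_natCast _ c
  have hc' : (c : ℂ) ≠ 0 := by exact_mod_cast hc.ne'
  rw [h, Complex.norm_natCast]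
  push_cast
  rw [div_self hc', one_zpow]

lemma ps_natCast_mul {c : ℕ} (hc : 0 < c) (k : ℤ) (z : GaussianInt) :
    ps k ((c : GaussianInt) * z) = ps k z := by
  rw [ps_mul, ps_natCast hc, one_mul]

/-! ### primitive vectors and primes -/

lemma prim_iff {z : GaussianInt} : prim z ↔ ∀ p : ℕ, p.Prime → ¬ ((p : GaussianInt) ∣ z) := by
  have key : ∀ n : ℕ, ((n : GaussianInt) ∣ z) ↔ ((n : ℤ) ∣ z.re ∧ (n : ℤ) ∣ z.im) := by
    intro n
    have := Zsqrtd.intCast_dvd (d := -1) (n : ℤ) z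
    push_cast at this
    exact this
  unfold prim
  constructor
  · intro h p hp hpz
    obtain ⟨h1, h2⟩ := (key p).1 hpz
    have h3 : (p : ℤ) ∣ (Int.gcd z.re z.im : ℤ) := Int.dvd_coe_gcd h1 h2
    rw [h] at h3
    have : p ∣ 1 := by exact_mod_cast h3
    exact hp.one_lt.ne' (Nat.dvd_one.1 this)
  · intro h
    by_contra hne
    obtain ⟨p, hp, hpd⟩ := Nat.exists_prime_and_dvd hne
    refine h p hp ((key p).2 ⟨?_, ?_⟩)
    · exact (Int.natCast_dvd_natCast.2 hpd).trans (Int.gcd_dvd_left _ _)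
    · exact (Int.natCast_dvd_natCast.2 hpd).trans (Int.gcd_dvd_right _ _)

lemma prim_of_dvd {z u : GaussianInt} (h : prim u) (hz : z ∣ u) : prim z := by
  rw [prim_iff] at h ⊢
  intro p hp hpz
  exact h p hp (hpz.trans hz)

lemma prim_star {z : GaussianInt} : prim (star z) ↔ prim z := by
  unfold prim
  simp

lemma gp_nm {p : ℕ} (hp : p.Prime) (h4 : p % 4 = 1) : nm (gp p) = p := by
  have hex : ∃ z : GaussianInt, nm z = p := by
    have : Fact p.Prime := ⟨hp⟩
    obtain ⟨a, b, hab⟩ := Nat.Prime.sq_add_sq (p := p) (by omega)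
    refine ⟨⟨(a : ℤ), (b : ℤ)⟩, ?_⟩
    have h1 := nm_cast (⟨(a : ℤ), (b : ℤ)⟩ : GaussianInt)
    have h2 : ((nm (⟨(a : ℤ), (b : ℤ)⟩ : GaussianInt) : ℕ) : ℤ) = ((a ^ 2 + b ^ 2 : ℕ) : ℤ) := by
      rw [h1]; push_cast; ring
    rw [hab] at h2
    exact_mod_cast h2
  unfold gp
  rw [dif_pos hex]
  exact hex.choose_spec

lemma nm_dvd {z u : GaussianInt} (h : z ∣ u) : nm z ∣ nm u := by
  obtain ⟨t, rfl⟩ := h
  rw [nm_mul]
  exact Dvd.intro _ rfl

lemma isUnit_iff_nm {z : GaussianInt} : IsUnit z ↔ nm z = 1 := by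
  rw [nm_eq_norm]
  exact (Zsqrtd.norm_eq_one_iff).symm

lemma irreducible_of_nm {p : ℕ} (hp : p.Prime) {π : GaussianInt} (h : nm π = p) :
    Irreducible π := by
  refine ⟨?_, ?_⟩
  · rw [isUnit_iff_nm, h]
    exact hp.one_lt.ne'
  · intro a b hab
    rw [isUnit_iff_nm, isUnit_iff_nm]
    have h1 : nm a * nm b = p := by rw [← nm_mul, ← hab, h]
    exact (Nat.prime_mul_iff.1 (h1 ▸ hp)).elim (fun h => Or.inr h.2) (fun h => Or.inl h.2)

lemma prime_of_nm {p : ℕ} (hp : p.Prime) {π : GaussianInt} (h : nm π = p) : Prime π :=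
  (irreducible_of_nm hp h).prime

lemma ne_zero_of_nm {p : ℕ} (hp : p.Prime) {π : GaussianInt} (h : nm π = p) : π ≠ 0 :=
  (prime_of_nm hp h).ne_zero

lemma dvd_of_dvd_nm {p : ℕ} (hp : p.Prime) {π : GaussianInt} (h : nm π = p) {z : GaussianInt}
    (hz : p ∣ nm z) : π ∣ z ∨ star π ∣ z := by
  have h1 : π ∣ ((p : ℕ) : GaussianInt) := by
    rw [← h, ← mul_star_self']
    exact Dvd.intro _ rfl
  have h2 : ((p : ℕ) : GaussianInt) ∣ ((nm z : ℕ) : GaussianInt) := Nat.cast_dvd_cast hz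
  have h3 : π ∣ z * star z := by
    rw [mul_star_self']
    exact h1.trans h2
  rcases (prime_of_nm hp h).dvd_or_dvd h3 with h4 | h4
  · exact Or.inl h4
  · right
    obtain ⟨t, ht⟩ := h4
    refine ⟨star t, ?_⟩
    have := congrArg star ht
    rw [star_star, star_mul, mul_comm] at this
    exact this

/-- for an odd prime `p` the two primes above `p` are not associated -/
lemma not_dvd_star {p : ℕ} (hp : p.Prime) (hp2 : p ≠ 2) {π : GaussianInt} (h : nm π = p) :
    ¬ π ∣ star π := by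
  intro hd
  -- then `π ∣ 2 re π` and `π ∣ 2 im π`-like elements, so `p ∣ 4 re^2`
  have h1 : π ∣ π + star π := dvd_add dvd_rfl hd
  have h2 : π + star π = ((2 * π.re : ℤ) : GaussianInt) := by
    apply Zsqrtd.ext
    · simp; ring
    · simp
  rw [h2] at h1
  have h3 := nm_dvd h1
  rw [h, nm_intCast] at h3
  have h4 : p ∣ (2 * π.re).natAbs := hp.dvd_of_dvd_pow h3
  have h5 : π ∣ π - star π := dvd_sub dvd_rfl hd
  have h6 : π - star π = ((2 * π.im : ℤ) : GaussianInt) * ⟨0, 1⟩ := by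
    apply Zsqrtd.ext
    · simp [Zsqrtd.re_mul]
    · simp [Zsqrtd.im_mul]; ring
  rw [h6] at h5
  have h7 := nm_dvd h5
  rw [h, nm_mul, nm_intCast] at h7
  have h8 : nm (⟨0, 1⟩ : GaussianInt) = 1 := by simp [nm]
  rw [h8, mul_one] at h7
  have h9 : p ∣ (2 * π.im).natAbs := hp.dvd_of_dvd_pow h7
  have hodd : ∀ x : ℤ, p ∣ (2 * x).natAbs → (p : ℤ) ∣ x := by
    intro x hx
    rw [Int.natAbs_mul] at hx
    rcases (Nat.Prime.dvd_mul hp).1 hx with h10 | h10
    · exfalso
      have : p ∣ 2 := by simpa using h10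
      exact hp2 ((Nat.prime_dvd_prime_iff_eq hp Nat.prime_two).1 this)
    · exact Int.natCast_dvd.2 h10
  have ha := hodd _ h4
  have hb := hodd _ h9
  have hc : (p : ℤ) ^ 2 ∣ (nm π : ℤ) := by
    rw [nm_cast]
    exact dvd_add (pow_dvd_pow_of_dvd ha 2) (pow_dvd_pow_of_dvd hb 2)
  rw [h] at hc
  have hd2 : p ^ 2 ∣ p := by exact_mod_cast hc
  have := Nat.le_of_dvd hp.pos hd2
  nlinarith [hp.two_le]

lemma prim_of_nm_prime {p : ℕ} (hp : p.Prime) {π : GaussianInt} (h : nm π = p) : prim π := by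
  rw [prim_iff]
  intro q hq hqd
  have h1 := nm_dvd hqd
  rw [nm_natCast, h] at h1
  have h2 : q ∣ p := (dvd_pow_self q two_ne_zero).trans h1
  have h3 := (Nat.prime_dvd_prime_iff_eq hq hp).1 h2
  subst h3
  have := Nat.le_of_dvd hq.pos h1
  nlinarith [hq.two_le]

/-- if both primes above `p` divide `z` then `z` is not primitive -/
lemma not_prim_of_both {p : ℕ} (hp : p.Prime) (hp2 : p ≠ 2) {π : GaussianInt} (h : nm π = p)
    {z : GaussianInt} (h1 : π ∣ z) (h2 : star π ∣ z) : ¬ prim z := by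
  intro hz
  obtain ⟨t, ht⟩ := h1
  rw [ht] at h2
  have hst : Prime (star π) := prime_of_nm hp (by rw [nm_star]; exact h)
  rcases hst.dvd_or_dvd h2 with h3 | h3
  · have h4 := not_dvd_star hp hp2 (π := star π) (by rw [nm_star]; exact h)
    rw [star_star] at h4
    exact h4 h3
  · obtain ⟨r, hr⟩ := h3
    have : ((p : ℕ) : GaussianInt) ∣ z := by
      rw [ht, hr, ← h, ← mul_star_self']
      exact ⟨r, by ring⟩
    exact (prim_iff.1 hz) p hp this

/-- `π z` is primitive iff `star π` does not divide `z` (for `z` primitive) -/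
lemma prim_mul_iff {p : ℕ} (hp : p.Prime) (hp2 : p ≠ 2) {π : GaussianInt} (h : nm π = p)
    {z : GaussianInt} (hz : prim z) : prim (π * z) ↔ ¬ star π ∣ z := by
  constructor
  · intro h1 h2
    exact not_prim_of_both hp hp2 h (Dvd.intro _ rfl) (h2.trans (Dvd.intro_left _ rfl)) h1
  · intro h1
    rw [prim_iff]
    intro q hq hqd
    by_cases hqp : q = p
    · subst hqp
      obtain ⟨t, ht⟩ := hqd
      apply h1
      have hπ := ne_zero_of_nm hp h
      refine ⟨t, ?_⟩
      rw [← h, ← mul_star_self', mul_assoc] at ht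
      exact mul_left_cancel₀ hπ ht
    · -- multiply by `star π`
      have h2 : ((q : ℕ) : GaussianInt) ∣ ((p : ℕ) : GaussianInt) * z := by
        rw [← h, ← star_mul_self', mul_assoc]
        exact hqd.trans (Dvd.intro_left _ rfl)
      have h3 : IsCoprime ((q : ℕ) : GaussianInt) ((p : ℕ) : GaussianInt) := by
        have h4 : IsCoprime (q : ℤ) (p : ℤ) :=
          Nat.isCoprime_iff_coprime.2 ((Nat.coprime_primes hq hp).2 hqp)
        obtain ⟨a, b, hab⟩ := h4
        refine ⟨(a : GaussianInt), (b : GaussianInt), ?_⟩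
        exact_mod_cast congrArg (fun x : ℤ => (x : GaussianInt)) hab
      exact (prim_iff.1 hz) q hq (h3.dvd_of_dvd_mul_left h2)

/-- the prime divisors of the norm of a primitive vector are `2` or `≡ 1 mod 4` -/
lemma prime_dvd_nm_prim {p : ℕ} (hp : p.Prime) {z : GaussianInt} (hz : prim z) (h : p ∣ nm z) :
    p = 2 ∨ p % 4 = 1 := by
  by_contra hcon
  push Not at hcon
  have hp3 : p % 4 = 3 := by
    have h1 : p % 2 = 1 := by
      rcases hp.eq_two_or_odd with h2 | h2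
      · exact absurd h2 hcon.1
      · exact h2
    omega
  have : Fact p.Prime := ⟨hp⟩
  have hP : Prime ((p : ℕ) : GaussianInt) :=
    (GaussianInt.prime_iff_mod_four_eq_three_of_nat_prime p).2 hp3
  have h2 : ((p : ℕ) : GaussianInt) ∣ z * star z := by
    rw [mul_star_self']
    exact Nat.cast_dvd_cast h
  rcases hP.dvd_or_dvd h2 with h3 | h3
  · exact (prim_iff.1 hz) p hp h3
  · exact (prim_iff.1 (prim_star.2 hz)) p hp h3

/-! ### determinants -/

lemma ip_dt (v u : GaussianInt) : (nm v : ℤ) * nm u = ip v u ^ 2 + dt v u ^ 2 := by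
  rw [nm_cast, nm_cast]
  unfold ip dt
  ring

lemma nm_add (v u : GaussianInt) : (nm (v + u) : ℤ) = nm v + 2 * ip v u + nm u := by
  rw [nm_cast, nm_cast, nm_cast]
  unfold ip
  simp only [Zsqrtd.re_add, Zsqrtd.im_add]
  ring

lemma star_mul_eq (v u : GaussianInt) : star v * u = ⟨ip v u, dt v u⟩ := by
  apply Zsqrtd.ext
  · simp [Zsqrtd.re_mul, ip]
  · simp [Zsqrtd.im_mul, dt]
    ring

lemma lam_mul {m n : ℕ} (hm : m ≠ 0) (hn : n ≠ 0) : lam (m * n) = lam m * lam n := by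
  unfold lam
  rw [ArithmeticFunction.cardFactors_mul hm hn, pow_add]

lemma lam_prime {p : ℕ} (hp : p.Prime) : lam p = -1 := by
  unfold lam
  rw [ArithmeticFunction.cardFactors_apply_prime hp, pow_one]

lemma lam_sq (n : ℕ) : lam n * lam n = 1 := by
  unfold lam
  rw [← pow_add, ← two_mul, pow_mul]
  norm_num

lemma lam_eq (n : ℕ) : lam n = 1 ∨ lam n = -1 := by
  unfold lam
  exact neg_one_pow_eq_or ℤ _

lemma bddG_gl : BddG gl := by
  intro z
  unfold gl
  rcases lam_eq (nm z) with h | h <;> rw [h] <;> norm_num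

lemma flipG_gl : FlipG gl := by
  intro p z hp h4 hz _
  have h4' : p % 4 = 1 := by simpa [P1] using h4
  unfold gl
  rw [nm_mul, gp_nm hp h4', lam_mul hp.ne_zero (nm_pos (prim_ne_zero hz)).ne', lam_prime hp]
  ring

lemma gl_star (z : GaussianInt) : gl (star z) = gl z := by
  unfold gl; rw [nm_star]

end Pool.Agent.W78.GM
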