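import Mathlib
import Pool.Agent.H970R2.X.Defs

/-!
Project GM (helper78): the Matomaki-Radziwill method for the angles of Gaussian integers, and the
parity of the number of prime factors of `n^2+1`. Definitions.

`lam`, `w`, `cell`, `FK`, `Fj`, `FR`, `LL`, `aa` are those of `H376R2/MR/Defs`,
`cellP`, `mmp`, `WWp`, `P1`, `Rich` those of `H970R2/X/Defs`.
-/

set_option autoImplicit false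

namespace Pool.Agent.W78.GM

open Finset Filter
open Pool.Agent.H376R2.MR Pool.Agent.H970R2.X

/-- the norm `x^2+y^2` of `x+iy` as a natural number -/
def nm (z : GaussianInt) : ℕ := (z.re ^ 2 + z.im ^ 2).natAbs

/-- primitive Gaussian integers (coordinates coprime) -/
def prim (z : GaussianInt) : Prop := Int.gcd z.re z.im = 1

instance : DecidablePred prim := fun z => inferInstanceAs (Decidable (Int.gcd z.re z.im = 1))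

/-- the Gaussian integers with `1 ≤ nm z ≤ X` -/
noncomputable def ball (X : ℝ) : Finset GaussianInt :=
  (((Icc (-(⌊X⌋₊ : ℤ)) ⌊X⌋₊) ×ˢ (Icc (-(⌊X⌋₊ : ℤ)) ⌊X⌋₊)).image
    (fun p => (⟨p.1, p.2⟩ : GaussianInt))).filter (fun z => 1 ≤ nm z ∧ (nm z : ℝ) ≤ X)

/-- primitive Gaussian integers with `nm z ≤ X` -/
noncomputable def pball (X : ℝ) : Finset GaussianInt := (ball X).filter prim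

/-- the annulus `A < nm z ≤ B` -/
noncomputable def ann (A B : ℝ) : Finset GaussianInt := (ball B).filter (fun z => A < (nm z : ℝ))

/-- the window `Y/e^2 ≤ nm z ≤ e^2 Y` -/
noncomputable def win (Y : ℝ) : Finset GaussianInt :=
  (ball (Real.exp 2 * Y)).filter (fun z => Y / Real.exp 2 ≤ (nm z : ℝ))

/-- the angle of `z` -/
noncomputable def ang (z : GaussianInt) : ℝ := Complex.arg (GaussianInt.toComplex z)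

/-- the angular character `(z/|z|)^k` -/
noncomputable def ps (k : ℤ) (z : GaussianInt) : ℂ :=
  (GaussianInt.toComplex z / ((‖GaussianInt.toComplex z‖ : ℝ) : ℂ)) ^ k

/-- the angular polynomial `∑_{z ∈ s} a_z (z/|z|)^k` -/
noncomputable def DPG (s : Finset GaussianInt) (a : GaussianInt → ℂ) (k : ℤ) : ℂ :=
  ∑ z ∈ s, a z * ps k z

/-- window coefficient `w(log (N z / Y)) / N z`, `w` the tent -/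
noncomputable def bg (Y : ℝ) (z : GaussianInt) : ℝ := w (Real.log (nm z) - Real.log Y) / nm z

/-- `G_Y(k) = ∑_{z primitive} g(z) w(log(N z/Y))/N z (z/|z|)^k` -/
noncomputable def GA (g : GaussianInt → ℤ) (Y : ℝ) (k : ℤ) : ℂ :=
  DPG (pball (Real.exp 1 * Y)) (fun z => (g z : ℂ) * (bg Y z : ℂ)) k

/-- the Liouville function of the norm -/
def gl (z : GaussianInt) : ℤ := lam (nm z)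

/-- a Gaussian integer of norm `p` (a prime element above `p` if `p ≡ 1 mod 4` is prime) -/
noncomputable def gp (p : ℕ) : GaussianInt :=
  open scoped Classical in if h : ∃ z : GaussianInt, nm z = p then h.choose else 1

/-- `P_v(k) = ∑_{p ∈ cell, p ≡ 1 mod 4} (π_p/|π_p|)^k / p` -/
noncomputable def PG (H v : ℕ) (k : ℤ) : ℂ := ∑ p ∈ cellP (P1 4) H v, ps k (gp p) / (p : ℂ)

/-- `m_v = ∑_{p ∈ cell, p ≡ 1 mod 4} 1 / p` -/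
noncomputable def mG (H v : ℕ) : ℝ := mmp (P1 4) H v

/-- `|g| ≤ 1` -/
def BddG (g : GaussianInt → ℤ) : Prop := ∀ z, |g z| ≤ 1

/-- `g(π_p z) = - g(z)` for `z` and `π_p z` primitive -/
def FlipG (g : GaussianInt → ℤ) : Prop :=
  ∀ (p : ℕ) (z : GaussianInt), p.Prime → P1 4 p → prim z → prim (gp p * z) → g (gp p * z) = - g z

/-- determinant of two vectors -/
def dt (v u : GaussianInt) : ℤ := v.re * u.im - v.im * u.re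

/-- inner product of two vectors -/
def ip (v u : GaussianInt) : ℤ := v.re * u.re + v.im * u.im

open scoped Classical in
/-- pairs of (angularly) consecutive primitive vectors of norm at most `X` -/
noncomputable def edge (X : ℝ) : Finset (GaussianInt × GaussianInt) :=
  (pball X ×ˢ pball X).filter (fun e => dt e.1 e.2 = 1 ∧ X < (nm (e.1 + e.2) : ℝ))

open scoped Classical in
/-- the edges with a sign change of the Liouville function of the norm -/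
noncomputable def sedge (X : ℝ) : Finset (GaussianInt × GaussianInt) :=
  (edge X).filter (fun e => lam (nm e.1) ≠ lam (nm e.2))

open scoped Classical in
/-- all pairs of determinant `1` of vectors of norm at most `X` -/
noncomputable def dedge (X : ℝ) : Finset (GaussianInt × GaussianInt) :=
  (pball X ×ˢ pball X).filter (fun e => dt e.1 e.2 = 1)

/-! ### The abstract machine -/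

/-- input of the abstract Matomaki-Radziwill machine: `P H v k`, `m H v`, `G Y k` -/
structure Mach (P : ℕ → ℕ → ℤ → ℂ) (m : ℕ → ℕ → ℝ) (G : ℝ → ℤ → ℂ) : Prop where
  /-- `m ≥ 0` -/
  m_nonneg : ∀ H v, 0 ≤ m H v
  /-- `∑ m` grows like a logarithm -/
  rich : ∃ c : ℝ, 0 < c ∧ ∃ C : ℝ, ∀ H v₀ v₁ : ℕ, 1 ≤ H → H ≤ v₀ → v₀ ≤ v₁ →
    c * Real.log ((v₁ : ℝ) / v₀) - C ≤ ∑ v ∈ Ico v₀ v₁, m H v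
  /-- no frequency `k ≠ 0` is bad at a whole cell -/
  cell_bound : ∃ c' : ℝ, 0 < c' ∧ c' ≤ 1 ∧ ∀ M H : ℕ, 1 ≤ H → ∃ v₀ : ℕ, ∀ v : ℕ, v₀ ≤ v →
    ∀ k : ℤ, k ≠ 0 → |(k : ℝ)| ≤ Real.exp (M * (v : ℝ) / H) → ‖P H v k‖ ≤ (1 - c') * m H v
  /-- the decomposition (Turan-Kubilius + flip) -/
  dec : ∃ C : ℝ, 0 < C ∧ ∃ β : ℝ, 0 < β ∧ ∃ Z₀ : ℝ, ∀ H v₀ v₁ : ℕ, 1 ≤ H → H ≤ v₀ →
    1 ≤ ∑ v ∈ Ico v₀ v₁, m H v → ∀ Y : ℝ, Real.exp (4 * (v₁ : ℝ) / H) ≤ Y → ∃ E : ℤ → ℂ,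
      (∀ k : ℤ, G Y k = -(1 / ((∑ v ∈ Ico v₀ v₁, m H v : ℝ) : ℂ)) *
        ∑ v ∈ Ico v₀ v₁, P H v k * G (Y * Real.exp (-((v : ℝ) / H))) k + E k) ∧
      (∀ K : ℕ, 1 ≤ K → (K : ℝ) ≤ Y → ∑ k ∈ FK K, ‖E k‖ ^ 2 ≤
        C * (1 / (∑ v ∈ Ico v₀ v₁, m H v) + 1 / (H : ℝ) ^ 2)) ∧
      (Z₀ ≤ Y → ∀ U : Finset ℤ, (∀ k ∈ U, |(k : ℝ)| ≤ Y ^ (4 / 3 : ℝ)) → (U.card : ℝ) ≤ Y ^ β →
        ∑ k ∈ U, ‖E k‖ ^ 2 ≤ C * (1 / (∑ v ∈ Ico v₀ v₁, m H v) + 1 / (H : ℝ) ^ 2))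
  /-- mean value of `G` -/
  mom_zero : ∃ C : ℝ, 0 < C ∧ ∀ (K : ℕ) (Z : ℝ), 3 ≤ Z → 1 ≤ K →
    ∑ k ∈ FK K, ‖G Z k‖ ^ 2 ≤ C * (1 + (K : ℝ) / Z)
  /-- moments of `P` -/
  momP : ∃ C : ℝ, 1 ≤ C ∧ ∀ H r ℓ K : ℕ, 1 ≤ H → 1 ≤ K → (K : ℝ) ≤ Real.exp ((r : ℝ) * ℓ / H) →
    ∑ k ∈ FK K, ‖P H r k‖ ^ (2 * ℓ) ≤ C ^ (ℓ + 1) * (ℓ.factorial : ℝ)
  /-- mixed moments -/
  mom : ∃ C : ℝ, 1 ≤ C ∧ ∀ (H r ℓ K : ℕ) (Z : ℝ), 1 ≤ H → 3 ≤ Z → 1 ≤ K →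
    (K : ℝ) ≤ Z * Real.exp ((r : ℝ) * ℓ / H) →
    ∑ k ∈ FK K, ‖P H r k ^ ℓ * G Z k‖ ^ 2 ≤ C ^ (ℓ + 1) * (ℓ.factorial : ℝ) ^ 2
  /-- sparse large sieve for `G` -/
  sparse : ∃ C : ℝ, 0 < C ∧ ∃ β : ℝ, 0 < β ∧ ∃ Z₀ : ℝ, ∀ Z : ℝ, Z₀ ≤ Z → ∀ U : Finset ℤ,
    (∀ k ∈ U, |(k : ℝ)| ≤ Z ^ (4 / 3 : ℝ)) → (U.card : ℝ) ≤ Z ^ β → ∑ k ∈ U, ‖G Z k‖ ^ 2 ≤ C

/-- smallness at the level `(H, v₀, v₁)` with exponent `α` -/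
def SmA (P : ℕ → ℕ → ℤ → ℂ) (H v₀ v₁ : ℕ) (α : ℝ) (k : ℤ) : Prop :=
  ∀ v ∈ Ico v₀ v₁, ‖P H v k‖ ≤ Real.exp (-(α * v / H))

/-- smallness at the level number `j` -/
def SmjA (P : ℕ → ℕ → ℤ → ℂ) (L : ℕ) (α : ℝ) (j : ℕ) (k : ℤ) : Prop :=
  SmA P (LL L j) (LL L j ^ 2) (LL L j ^ 3) (aa α j) k

/-! ### Statements of the tasks, part 1: the abstract machine -/

/-- LEVA -/
def S_LEVA : Prop := ∀ (P : ℕ → ℕ → ℤ → ℂ) (m : ℕ → ℕ → ℝ) (G : ℝ → ℤ → ℂ), Mach P m G →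
  ∃ C : ℝ, 0 < C ∧ ∀ α : ℝ, 0 < α → α ≤ 1 → ∃ L₀ : ℕ, ∀ L : ℕ, L₀ ≤ L →
    ∀ (Y : ℝ) (K : ℕ), Real.exp (4 * (L : ℝ) ^ 2) ≤ Y → 1 ≤ K → (K : ℝ) * Real.exp ((L : ℝ) ^ 2) ≤ Y →
    (open scoped Classical in
      ∑ k ∈ (FK K).filter (fun k => SmjA P L α 0 k), ‖G Y k‖ ^ 2) ≤ C / Real.log L

/-- LEVB -/
def S_LEVB : Prop := ∀ (P : ℕ → ℕ → ℤ → ℂ) (m : ℕ → ℕ → ℝ) (G : ℝ → ℤ → ℂ), Mach P m G →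
  ∃ C : ℝ, 0 < C ∧ ∀ α : ℝ, 0 < α → α ≤ 1 → ∃ L₀ : ℕ, ∀ L : ℕ, L₀ ≤ L →
    ∀ (j : ℕ) (Y : ℝ) (K : ℕ), Real.exp (4 * (LL L (j + 1) : ℝ) ^ 2) ≤ Y → 1 ≤ K → (K : ℝ) ≤ Y →
    (open scoped Classical in
      ∑ k ∈ (FK K).filter (fun k => SmjA P L α (j + 1) k ∧ ¬ SmjA P L α j k), ‖G Y k‖ ^ 2) ≤
      C / (3 ^ (j + 1) * Real.log L)

/-- CNT -/
def S_CNT : Prop := ∀ (P : ℕ → ℕ → ℤ → ℂ) (m : ℕ → ℕ → ℝ) (G : ℝ → ℤ → ℂ), Mach P m G →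
  ∀ α : ℝ, 0 < α → α ≤ 1 → ∃ L₀ : ℕ, ∀ L : ℕ, L₀ ≤ L → ∃ Y₀ : ℝ, ∀ Y : ℝ, Y₀ ≤ Y →
    ∀ j K : ℕ, (LL L j : ℝ) ^ 4 ≤ Real.log Y → Real.log Y < (LL L (j + 1) : ℝ) ^ 4 → (K : ℝ) ≤ Y →
    (open scoped Classical in
      (((FK K).filter (fun k => ¬ SmjA P L α j k)).card : ℝ)) ≤ Y ^ (4 * α)

/-- TPART -/
def S_TPART : Prop := S_LEVA → S_LEVB → S_CNT →
  ∀ (P : ℕ → ℕ → ℤ → ℂ) (m : ℕ → ℕ → ℝ) (G : ℝ → ℤ → ℂ), Mach P m G →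
    ∀ α η : ℝ, 0 < α → 0 < η → ∃ h : ℝ, 1 ≤ h ∧ ∃ Y₀ : ℝ, ∀ Y : ℝ, Y₀ ≤ Y →
    ∃ U : Finset ℤ, (U.card : ℝ) ≤ Y ^ α ∧ ∑ k ∈ FK ⌊Y / h⌋₊ \ U, ‖G Y k‖ ^ 2 ≤ η

/-- UPART -/
def S_UPART : Prop := ∀ (P : ℕ → ℕ → ℤ → ℂ) (m : ℕ → ℕ → ℝ) (G : ℝ → ℤ → ℂ), Mach P m G →
  ∀ η : ℝ, 0 < η → ∃ α : ℝ, 0 < α ∧ ∃ Y₀ : ℝ, ∀ Y : ℝ, Y₀ ≤ Y → ∀ U : Finset ℤ,
    (∀ k ∈ U, k ≠ 0 ∧ |(k : ℝ)| ≤ Y) → (U.card : ℝ) ≤ Y ^ α → ∑ k ∈ U, ‖G Y k‖ ^ 2 ≤ η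

/-- the conclusion of the machine -/
def S_MACH : Prop := ∀ (P : ℕ → ℕ → ℤ → ℂ) (m : ℕ → ℕ → ℝ) (G : ℝ → ℤ → ℂ), Mach P m G →
  ∀ η : ℝ, 0 < η → ∃ h : ℝ, 1 ≤ h ∧ ∃ Y₀ : ℝ, ∀ Y : ℝ, Y₀ ≤ Y →
    ∑ k ∈ (FK ⌊Y / h⌋₊).erase 0, ‖G Y k‖ ^ 2 ≤ η

/-! ### Statements of the tasks, part 2: Gaussian integers -/

/-- LAT: lattice points -/
def S_LAT : Prop := ∃ C : ℝ, 0 < C ∧
  (∀ X : ℝ, 1 ≤ X → |((ball X).card : ℝ) - Real.pi * X| ≤ C * Real.sqrt X) ∧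
  (∀ A B : ℝ, 1 ≤ A → A ≤ B →
    |∑ z ∈ ann A B, 1 / (nm z : ℝ) - Real.pi * Real.log (B / A)| ≤ C / Real.sqrt A)

/-- LS: large sieve for angles of primitive Gaussian integers -/
def S_LS : Prop := ∃ C : ℝ, 0 < C ∧ ∀ (X : ℝ) (K : ℕ) (s : Finset GaussianInt)
  (a : GaussianInt → ℂ), 1 ≤ X → 1 ≤ K → (∀ z ∈ s, prim z ∧ (nm z : ℝ) ≤ X) →
  ∑ k ∈ FK K, ‖DPG s a k‖ ^ 2 ≤ C * (K + X) * ∑ z ∈ s, ‖a z‖ ^ 2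

/-- ANG1: angular sums, van der Corput part -/
def S_ANG1 : Prop := ∀ M : ℕ, ∃ η : ℝ, 0 < η ∧ ∃ C : ℝ, 0 < C ∧ ∀ (X : ℝ) (k : ℤ), 1 ≤ X → k ≠ 0 →
  |(k : ℝ)| ≤ X ^ M → ‖∑ z ∈ ball X, ps k z‖ ≤ C * (X ^ (1 - η) + X / |(k : ℝ)|)

/-- ANG2: angular sums, small frequencies -/
def S_ANG2 : Prop := ∃ C : ℝ, 0 < C ∧ ∀ (X : ℝ) (k : ℤ), 1 ≤ X → k ≠ 0 →
  ‖∑ z ∈ ball X, ps k z‖ ≤ C * |(k : ℝ)| * Real.sqrt X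

/-- ANG: angular sums -/
def S_ANG : Prop := ∀ M : ℕ, ∃ η : ℝ, 0 < η ∧ ∃ C : ℝ, 0 < C ∧ ∀ (X : ℝ) (k : ℤ), 1 ≤ X → k ≠ 0 →
  |(k : ℝ)| ≤ X ^ M → ‖∑ z ∈ ball X, ps k z‖ ≤ C * X ^ (1 - η)

/-- SPARSE: large sieve for sparse sets of frequencies -/
def S_SPARSE : Prop := ∃ α : ℝ, 0 < α ∧ ∃ C : ℝ, 0 < C ∧ ∃ Z₀ : ℝ, ∀ Z : ℝ, Z₀ ≤ Z →
  ∀ U : Finset ℤ, (∀ k ∈ U, |(k : ℝ)| ≤ Z ^ (4 / 3 : ℝ)) → (U.card : ℝ) ≤ Z ^ α →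
  ∀ (s : Finset GaussianInt) (a : GaussianInt → ℂ),
    (∀ z ∈ s, 1 ≤ nm z ∧ (nm z : ℝ) ≤ Real.exp 2 * Z) →
    ∑ k ∈ U, ‖DPG s a k‖ ^ 2 ≤ C * Z * ∑ z ∈ s, ‖a z‖ ^ 2

/-- TK: Turan-Kubilius -/
def S_TK : Prop := ∃ C : ℝ, 0 < C ∧ ∀ (S : Finset ℕ) (ϖ : ℕ → GaussianInt) (Q Y : ℝ),
  (∀ p ∈ S, p.Prime ∧ p % 4 = 1 ∧ (p : ℝ) ≤ Q ∧ nm (ϖ p) = p) → 1 ≤ ∑ p ∈ S, 1 / (p : ℝ) →
  Q ^ 4 ≤ Y →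
  (open scoped Classical in
    ∑ z ∈ win Y, (((S.filter (fun p => ϖ p ∣ z)).card : ℝ) - ∑ p ∈ S, 1 / (p : ℝ)) ^ 2 / (nm z : ℝ))
    ≤ C * ∑ p ∈ S, 1 / (p : ℝ)

/-- DEC: the decomposition -/
def S_DEC : Prop := ∀ g : GaussianInt → ℤ, BddG g → FlipG g →
  ∃ C : ℝ, 0 < C ∧ ∀ H v₀ v₁ : ℕ, 1 ≤ H → H ≤ v₀ → 1 ≤ ∑ v ∈ Ico v₀ v₁, mG H v → ∀ Y : ℝ,
    Real.exp (4 * (v₁ : ℝ) / H) ≤ Y → ∃ (s : Finset GaussianInt) (a : GaussianInt → ℂ),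
      (∀ z ∈ s, prim z ∧ (nm z : ℝ) ≤ Real.exp 2 * Y) ∧
      (∀ k : ℤ, GA g Y k = -(1 / ((∑ v ∈ Ico v₀ v₁, mG H v : ℝ) : ℂ)) *
        ∑ v ∈ Ico v₀ v₁, PG H v k * GA g (Y * Real.exp (-((v : ℝ) / H))) k + DPG s a k) ∧
      Y * ∑ z ∈ s, ‖a z‖ ^ 2 ≤ C * (1 / (∑ v ∈ Ico v₀ v₁, mG H v) + 1 / (H : ℝ) ^ 2)

/-- MOM0 and MOMP: the mean values -/
def S_MOMP : Prop :=
  (∀ g : GaussianInt → ℤ, BddG g → ∃ C : ℝ, 0 < C ∧ ∀ (K : ℕ) (Z : ℝ), 3 ≤ Z → 1 ≤ K →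
    ∑ k ∈ FK K, ‖GA g Z k‖ ^ 2 ≤ C * (1 + (K : ℝ) / Z)) ∧
  (∃ C : ℝ, 1 ≤ C ∧ ∀ H r ℓ K : ℕ, 1 ≤ H → 1 ≤ K → (K : ℝ) ≤ Real.exp ((r : ℝ) * ℓ / H) →
    ∑ k ∈ FK K, ‖PG H r k‖ ^ (2 * ℓ) ≤ C ^ (ℓ + 1) * (ℓ.factorial : ℝ))

/-- MOM: mixed moments -/
def S_MOM : Prop := ∀ g : GaussianInt → ℤ, BddG g → ∃ C : ℝ, 1 ≤ C ∧
  ∀ (H r ℓ K : ℕ) (Z : ℝ), 1 ≤ H → 3 ≤ Z → 1 ≤ K → (K : ℝ) ≤ Z * Real.exp ((r : ℝ) * ℓ / H) →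
    ∑ k ∈ FK K, ‖PG H r k ^ ℓ * GA g Z k‖ ^ 2 ≤ C ^ (ℓ + 1) * (ℓ.factorial : ℝ) ^ 2

/-- SELH: Selberg weights of dimension one half, for the primes `≡ 1 mod 4` -/
def S_SELH : Prop := ∃ C : ℝ, 0 < C ∧ ∀ D : ℕ, 2 ≤ D → ∃ l : ℕ → ℝ, l 1 = 1 ∧ (∀ d, |l d| ≤ 1) ∧
  (∀ d, l d ≠ 0 → 1 ≤ d ∧ d ≤ D ∧ Squarefree d ∧ ∀ p : ℕ, p.Prime → p ∣ d → p % 4 = 1) ∧
  0 ≤ ∑ d ∈ Icc 1 D, ∑ e ∈ Icc 1 D, l d * l e / (Nat.lcm d e : ℝ) ∧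
  ∑ d ∈ Icc 1 D, ∑ e ∈ Icc 1 D, l d * l e / (Nat.lcm d e : ℝ) ≤ C / Real.sqrt (Real.log D)

/-- SELG: the sieve bound for Gaussian primes in a cell with the phases `e^{i r k θ}` -/
def S_SELG : Prop := ∃ C : ℝ, 0 < C ∧ ∀ M H R : ℕ, 1 ≤ H → 1 ≤ R → ∃ v₀ : ℕ, ∀ v : ℕ, v₀ ≤ v →
  ∀ k : ℤ, k ≠ 0 → |(k : ℝ)| ≤ Real.exp (M * (v : ℝ) / H) →
    ∀ φ : ℝ, ∑ p ∈ cellP (P1 4) H v, FR R (k * ang (gp p) + φ) / (p : ℝ) ≤ C / v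

/-- CELLG -/
def S_CELLG : Prop := ∃ c' : ℝ, 0 < c' ∧ c' ≤ 1 ∧ ∀ M H : ℕ, 1 ≤ H → ∃ v₀ : ℕ, ∀ v : ℕ, v₀ ≤ v →
  ∀ k : ℤ, k ≠ 0 → |(k : ℝ)| ≤ Real.exp (M * (v : ℝ) / H) → ‖PG H v k‖ ≤ (1 - c') * mG H v

/-- MR: the Matomaki-Radziwill theorem for the angles of Gaussian integers -/
def S_MR : Prop := ∀ η : ℝ, 0 < η → ∃ h : ℝ, 1 ≤ h ∧ ∃ Y₀ : ℝ, ∀ Y : ℝ, Y₀ ≤ Y →
  ∑ k ∈ (FK ⌊Y / h⌋₊).erase 0, ‖GA gl Y k‖ ^ 2 ≤ η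

/-! ### Statements of the tasks, part 3: sign changes along Farey edges -/

/-- A0: the main frequency of the constant function is not small -/
def S_A0 : Prop := ∃ Y₀ : ℝ, ∀ Y : ℝ, Y₀ ≤ Y → 1 ≤ ∑ z ∈ pball (Real.exp 1 * Y), bg Y z

/-- SECT: few primitive vectors in a thin sector -/
def S_SECT : Prop := ∃ C : ℝ, 0 < C ∧ ∀ (X δ θ : ℝ), 1 ≤ X → 0 ≤ δ → δ ≤ Real.pi →
  (open scoped Classical in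
    (((pball X).filter (fun z => ∃ j : ℤ, |ang z - θ + 2 * Real.pi * j| ≤ δ)).card : ℝ)) ≤
    C * (X * δ + 1)

/-- BETW: between two primitive vectors with different signs there is a sign change edge -/
def S_BETW : Prop := ∀ (X : ℝ) (z z' : GaussianInt), z ∈ pball X → z' ∈ pball X → 0 < dt z z' →
  lam (nm z) ≠ lam (nm z') → ∃ e ∈ sedge X, 0 ≤ dt z e.1 ∧ 0 < dt z e.2 ∧ 0 < dt e.1 z' ∧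
    0 ≤ dt e.2 z'

/-- PAIR: pairs of close directions with different signs -/
def S_PAIR : Prop := ∃ C : ℝ, 0 < C ∧ ∀ (X T : ℝ) (K : ℕ) (u : GaussianInt), 1 ≤ X → 1 ≤ T → 1 ≤ K →
  2 * T ≤ K → (u = 1 ∨ u = ⟨1, 1⟩) →
  (open scoped Classical in
    ∑ z ∈ pball X, ∑ z' ∈ pball X, (if gl z ≠ gl (u * z') then Fj K (ang z - ang (u * z')) else 0)) ≤
    C * (K * (T * X / K + 1) ^ 2 * ((sedge (2 * X)).card : ℝ) + X ^ 2 / T + X * K / T ^ 2)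

/-- SC: a positive proportion of sign changes -/
def S_SC : Prop := ∃ ε : ℝ, 0 < ε ∧ ∃ X₀ : ℝ, ∀ X : ℝ, X₀ ≤ X → ε * X ≤ ((sedge X).card : ℝ)

end Pool.Agent.W78.GM
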