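import Pool.Agent.W78.GM.Basic

/-!
Project GM (helper78), part 2: from edges to integers `n`, squarefreeness of `n^2+1`. Definitions
and statements.
-/

set_option autoImplicit false

namespace Pool.Agent.W78.GM

open Finset Filter
open Pool.Agent.H376R2.MR Pool.Agent.H970R2.X

/-- the product of the two norms; equal to `(ip v u)^2 + 1` if `dt v u = 1` -/
def NN (e : GaussianInt × GaussianInt) : ℕ := nm e.1 * nm e.2

/-- the excess `Ω - ω`: zero exactly for squarefree numbers -/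
def exc (m : ℕ) : ℕ :=
  ArithmeticFunction.cardFactors m - ArithmeticFunction.cardDistinctFactors m

open scoped Classical in
/-- pairs of primitive vectors of determinant `1` with `nm v ≤ X₁`, `nm u ≤ X₂` -/
noncomputable def redge (X₁ X₂ : ℝ) : Finset (GaussianInt × GaussianInt) :=
  (pball X₁ ×ˢ pball X₂).filter (fun e => dt e.1 e.2 = 1)

/-- the product of the squares of the primes `ℓ ≤ z`, `ℓ ≡ 1 mod 4` -/
def mz (z : ℕ) : ℕ := ∏ l ∈ (range (z + 1)).filter (fun l => l.Prime ∧ l % 4 = 1), l ^ 2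

/-- the new vector in the resolution: `v/ρ + ρ̄ u` -/
def xx (ρ : GaussianInt) (e : GaussianInt × GaussianInt) : GaussianInt := e.1 / ρ + star ρ * e.2

/-! ### Statements -/

/-- MULT: few pairs of determinant `1` with the same inner product -/
def S_MULT : Prop := ∀ (n : ℤ) (S : Finset (GaussianInt × GaussianInt)),
  (∀ e ∈ S, dt e.1 e.2 = 1 ∧ ip e.1 e.2 = n) → S.card ≤ 4 * (n ^ 2 + 1).natAbs.divisors.card

/-- TYP: a typical norm has at most `(1+ε) log log X` prime factors -/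
def S_TYP : Prop := ∀ ε δ : ℝ, 0 < ε → 0 < δ → ∃ X₀ : ℝ, ∀ X : ℝ, X₀ ≤ X →
  (((pball X).filter (fun z =>
    (1 + ε) * Real.log (Real.log X) < (((nm z).primeFactors.card : ℕ) : ℝ))).card : ℝ) ≤ δ * X

/-- SIFT: few vectors without prime divisors from a finite set with large reciprocal sum -/
def S_SIFT : Prop := ∀ Q : Finset ℕ, (∀ q ∈ Q, q.Prime ∧ q % 4 = 1) → ∃ X₀ : ℝ, ∀ X : ℝ, X₀ ≤ X →
  (open scoped Classical in
    (((ball X).filter (fun z => ∀ q ∈ Q, ¬ gp q ∣ z)).card : ℝ)) ≤ 4 * (∏ q ∈ Q, (1 - 1 / (q : ℝ))) * X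

/-- EQU: upper bound for the number of pairs of determinant `1` in a residue class -/
def S_EQU : Prop := ∃ C : ℝ, 0 < C ∧ ∀ A : ℕ, ∃ X₀ : ℝ, ∀ (X X₁ X₂ : ℝ) (M : ℕ)
  (v₀ u₀ : GaussianInt), X₀ ≤ X → 1 ≤ X₁ → 1 ≤ X₂ → X₁ * X₂ ≤ X ^ 2 →
  X₁ ≤ X * Real.log X ^ A → X₂ ≤ X * Real.log X ^ A → 1 ≤ M → (M : ℝ) ≤ Real.log X ^ A →
  (open scoped Classical in
    (((redge X₁ X₂).filter (fun e => (M : GaussianInt) ∣ e.1 - v₀ ∧
      (M : GaussianInt) ∣ e.2 - u₀)).card : ℝ)) ≤ C * X / (M : ℝ) ^ 3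

/-- LARGE: few pairs for which `n^2+1` is divisible by the square of a large prime -/
def S_LARGE : Prop := ∃ A : ℕ, ∀ δ : ℝ, 0 < δ → ∃ X₀ : ℝ, ∀ X : ℝ, X₀ ≤ X →
  (open scoped Classical in
    (((dedge X).filter (fun e => ∃ l : ℕ, l.Prime ∧ Real.log X ^ A < (l : ℝ) ∧
      l ^ 2 ∣ NN e)).card : ℝ)) ≤ δ * X

/-- SQ: few pairs for which `n^2+1` is divisible by the square of a prime `> z` -/
def S_SQ : Prop := ∃ C : ℝ, 0 < C ∧ ∀ z : ℕ, 2 ≤ z → ∃ X₀ : ℝ, ∀ X : ℝ, X₀ ≤ X →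
  (open scoped Classical in
    (((dedge X).filter (fun e => ∃ l : ℕ, l.Prime ∧ z < l ∧ l ^ 2 ∣ NN e)).card : ℝ)) ≤ C / z * X

/-- VE: from vertices to pairs -/
def S_VE : Prop := ∃ C : ℝ, 0 < C ∧ ∀ (κ X : ℝ) (V : Finset GaussianInt), 0 < κ → κ ≤ 1 → 1 ≤ X →
  (open scoped Classical in
    (((dedge X).filter (fun e => e.1 ∈ V ∨ e.2 ∈ V)).card : ℝ)) ≤
    C * (κ * X + ((V ∩ pball X).card : ℝ) / κ)

/-- EXCT: the excess of `n^2+1` is bounded for most pairs -/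
def S_EXCT : Prop := ∀ δ : ℝ, 0 < δ → ∃ (k : ℕ) (X₀ : ℝ), ∀ X : ℝ, X₀ ≤ X →
  (((dedge X).filter (fun e => k < exc (NN e))).card : ℝ) ≤ δ * X

/-- LOC: a good residue class for the auxiliary prime `q` -/
def S_LOC : Prop := ∀ z : ℕ, ∃ c : ℤ → ℤ → ℤ → ℕ,
  (∀ A B n : ℤ, c A B n % 4 = 1 ∧ Nat.Coprime (c A B n) (mz z)) ∧
  (∀ A B n A' B' n' : ℤ, A ≡ A' [ZMOD mz z] → B ≡ B' [ZMOD mz z] → n ≡ n' [ZMOD mz z] →
    c A B n = c A' B' n') ∧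
  (∀ A B n : ℤ, A * B = n ^ 2 + 1 → ∀ q : ℕ, q ≡ c A B n [MOD 4 * mz z] →
    ∀ l : ℕ, l.Prime → l % 4 = 1 → l ≤ z →
      ¬ ((l : ℤ) ∣ A + 2 * n * q + q ^ 2 * B ∧
        ((l : ℤ) ∣ A * B ∨ (l : ℤ) ^ 2 ∣ A + 2 * n * q + q ^ 2 * B)))

/-- EXC2: few pairs for which the resolution by a candidate `q` is bad at a prime `> z` -/
def S_EXC2 : Prop := ∃ C : ℝ, 0 < C ∧ ∀ (z : ℕ) (S : ℝ)
  (Q : GaussianInt → GaussianInt → Finset ℕ), 5 ≤ z → 1 ≤ S →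
  (∀ v u v' u' : GaussianInt, (mz z : GaussianInt) ∣ v - v' → (mz z : GaussianInt) ∣ u - u' →
    Q v u = Q v' u') →
  (∀ v u : GaussianInt, ∀ q ∈ Q v u, q.Prime ∧ q % 4 = 1 ∧ z ^ 2 < q) →
  (∀ v u : GaussianInt, ∑ q ∈ Q v u, 1 / (q : ℝ) ≤ S) →
  ∀ A : ℕ, ∃ X₀ : ℝ, ∀ X X₁ X₂ : ℝ, X₀ ≤ X → 1 ≤ X₁ → 1 ≤ X₂ → X₁ * X₂ ≤ X ^ 2 →
  X₁ ≤ X * Real.log X → X₂ ≤ X * Real.log X →
  ∀ p : ℕ, (p = 1 ∨ (p.Prime ∧ p % 4 = 1 ∧ p ≤ z)) →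
  (open scoped Classical in
    (((redge X₁ X₂).filter (fun e => (p ∣ nm e.1 ∧ p ∣ nm e.2) ∧
      ∃ q ∈ Q e.1 e.2, gp q ∣ e.1 ∧ ∃ l : ℕ, l.Prime ∧ l % 4 = 1 ∧ z < l ∧
        (l : ℝ) ≤ Real.log X ^ A ∧ l ∣ nm (xx (gp q) e) ∧
        (l ∣ NN e ∨ l ^ 2 ∣ nm (xx (gp q) e)))).card : ℝ)) ≤
    C * S / (z * Real.log z) * X / (p : ℝ) ^ 2

/-- RES: the resolution. For most pairs `e` of determinant `1` there are two such pairs `F₁ e`,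
`F₂ e` with `λ(NN (F₁ e)) λ(NN (F₂ e)) = λ(NN e)` and smaller excess. -/
def S_RES : Prop := ∀ δ : ℝ, 0 < δ → ∃ (Q : ℝ) (D : ℕ) (X₀ : ℝ), 1 ≤ Q ∧ ∀ X : ℝ, X₀ ≤ X →
  ∃ (E : Finset (GaussianInt × GaussianInt))
    (F₁ F₂ : GaussianInt × GaussianInt → GaussianInt × GaussianInt),
    (E.card : ℝ) ≤ δ * X ∧
    (∀ e ∈ dedge X, e ∉ E → F₁ e ∈ dedge (Q * X) ∧ F₂ e ∈ dedge (Q * X) ∧
      lam (NN (F₁ e)) * lam (NN (F₂ e)) = lam (NN e) ∧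
      exc (NN (F₁ e)) ≤ exc (NN e) - 1 ∧ exc (NN (F₂ e)) ≤ exc (NN e) - 1) ∧
    (open scoped Classical in
      ∀ f : GaussianInt × GaussianInt,
        ((dedge X).filter (fun e => e ∉ E ∧ F₁ e = f)).card ≤ D ∧
        ((dedge X).filter (fun e => e ∉ E ∧ F₂ e = f)).card ≤ D)

/-- final statement: `μ(n^2+1) = e` for at least `N/(log N)^{7/5}` of the `n ≤ N` -/
def S_T1 : Prop := ∀ e : ℤ, e = 1 ∨ e = -1 → ∃ N₀ : ℕ, ∀ N : ℕ, N₀ ≤ N →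
  (N : ℝ) / Real.log N ^ (7 / 5 : ℝ) ≤
    ((((Icc 1 N).filter (fun n : ℕ => ArithmeticFunction.moebius (n ^ 2 + 1) = e)).card : ℕ) : ℝ)

end Pool.Agent.W78.GM
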