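import Pool.Agent.W78.GM.SC
import Pool.Agent.W240.GM.LevA
import Pool.Agent.W240.GM.LevB
import Pool.Agent.W40.GM.Cnt
import Pool.Agent.W73.GM.Tpart
import Pool.Agent.W73.GM.Upart
import Pool.Agent.W64.GM.Lat
import Pool.Agent.W345.GM.LS
import Pool.Agent.W540.GM.Ang1
import Pool.Agent.W64.GM.Ang2
import Pool.Agent.W29.GM.Sparse
import Pool.Agent.W376.GM.TK
import Pool.Agent.W305.GM.Dec2
import Pool.Agent.W83.GM.Momp
import Pool.Agent.W45.GM.Mom
import Pool.Agent.W64.GM.Selh
import Pool.Agent.W216.GM.SelC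
import Pool.Agent.W85.GM.CellQ
import Pool.Agent.W820.GM.A0
import Pool.Agent.W79.GM.Sect
import Pool.Agent.W79.GM.Pair

/-!
Project GM (helper78): a positive proportion of the Farey edges are sign changes, all parts.
-/

set_option autoImplicit false

namespace Pool.Agent.W78.GM

open Finset Filter
open Pool.Agent.H376R2.MR Pool.Agent.H970R2.X

/-- the Matomaki-Radziwill theorem for the angles of Gaussian integers -/
theorem mr : S_MR := by
  have hlat : S_LAT := Pool.Agent.W64.GM.lat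
  have hls : S_LS := Pool.Agent.W345.GM.ls
  have hang : S_ANG := Pool.Agent.W64.GM.ang_of Pool.Agent.W540.GM.ang1 Pool.Agent.W64.GM.ang2
  have hmach : S_MACH := Pool.Agent.W73.GM.mach_of Pool.Agent.W240.GM.leva
    Pool.Agent.W240.GM.levb Pool.Agent.W40.GM.s_cnt Pool.Agent.W73.GM.upart
  exact mr_of hmach (Pool.Agent.W305.GM.dec_of hlat (Pool.Agent.W376.GM.tk_of hlat))
    (Pool.Agent.W83.GM.momp_of hls hlat) (Pool.Agent.W45.GM.mom_of hls hlat)
    (Pool.Agent.W29.GM.sparse_of hang hlat) hls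
    (Pool.Agent.W85.GM.cellg_of (Pool.Agent.W216.GM.selg_of hang hlat Pool.Agent.W64.GM.selh)) hlat

/-- a positive proportion of the Farey edges are sign changes -/
theorem sc : S_SC :=
  sc_of mr (Pool.Agent.W79.GM.pair_of Pool.Agent.W79.GM.sect Pool.Agent.W79.GM.betw
    Pool.Agent.W64.GM.lat) (Pool.Agent.W820.GM.a0_of Pool.Agent.W64.GM.lat)

end Pool.Agent.W78.GM
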