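import Pool.Agent.W78.GM.T1
import Pool.Agent.W78.GM.SCAll
import Pool.Agent.W591.GM.Equ
import Pool.Agent.W801.GM.Large
import Pool.Agent.W358.GM.Loc
import Pool.Agent.W880.GM.Exc
import Pool.Agent.W29.GM.Mult
import Pool.Agent.W29.GM.Sift
import Pool.Agent.W29.GM.Ve
import Pool.Agent.W29.GM.Typ
import Pool.Agent.W29.GM.Exct
import Pool.Agent.W285.GM.Res

/-!
Project GM (helper78): the final theorems on `μ(n^2+1)`.
-/

set_option autoImplicit false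

namespace Pool.Agent.W78.GM

open Finset Filter
open Pool.Agent.H376R2.MR Pool.Agent.H970R2.X

theorem s_large : S_LARGE := Pool.Agent.W801.GM.large_of Pool.Agent.W29.GM.mult

theorem s_sq : S_SQ := Pool.Agent.W880.GM.sq_of Pool.Agent.W591.GM.equ s_large

theorem s_exc2 : S_EXC2 := Pool.Agent.W880.GM.exc2_of Pool.Agent.W591.GM.equ

theorem s_sift : S_SIFT := Pool.Agent.W29.GM.sift_of Pool.Agent.W64.GM.lat

theorem s_res : S_RES := Pool.Agent.W285.GM.res_of Pool.Agent.W358.GM.loc s_exc2 s_large s_sift s_sq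
  Pool.Agent.W29.GM.ve

theorem s_typ : S_TYP := Pool.Agent.W29.GM.typ_of Pool.Agent.W64.GM.lat
  (Pool.Agent.W376.GM.tk_of Pool.Agent.W64.GM.lat)

theorem s_exct : S_EXCT := Pool.Agent.W29.GM.exct_of s_sq Pool.Agent.W29.GM.ve
  Pool.Agent.W64.GM.lat

/-- a positive proportion of squarefree pairs with sign `e` -/
theorem bk_all (e : ℤ) (he : e = 1 ∨ e = -1) :
    ∃ c X₀ : ℝ, 0 < c ∧ ∀ X : ℝ, X₀ ≤ X → c * X ≤ ((Bk 0 e X).card : ℝ) := by
  have hneg := bk_neg sc s_exct s_res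
  rcases he with rfl | rfl
  · exact bk_pos hneg s_res
  · exact hneg

theorem mu_count (e : ℤ) (he : e = 1 ∨ e = -1) (ε : ℝ) (hε : 0 < ε) :
    ∃ N₀ : ℕ, ∀ N : ℕ, N₀ ≤ N → (N : ℝ) / Real.log N ^ (2 * Real.log 2 + ε) ≤
    ((((Icc 1 N).filter (fun n : ℕ => ArithmeticFunction.moebius (n ^ 2 + 1) = e)).card : ℕ) : ℝ) :=
  t1_of sc s_res s_typ Pool.Agent.W29.GM.mult s_exct Pool.Agent.W29.GM.ve e he ε hε

/-- at most four pairs of determinant one have given inner product `n` and given first norm -/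
lemma card_pair_le (n : ℤ) (d : ℕ) (S : Finset (GaussianInt × GaussianInt))
    (hS : ∀ e ∈ S, dt e.1 e.2 = 1 ∧ ip e.1 e.2 = n ∧ nm e.1 = d) : S.card ≤ 4 := by
  classical
  rcases S.eq_empty_or_nonempty with h0 | ⟨e₀, he₀⟩
  · rw [h0]; simp
  obtain ⟨h1, h2, h3⟩ := hS e₀ he₀
  have hw : ∀ e ∈ S, star e.1 * e.2 = (⟨n, 1⟩ : GaussianInt) := by
    intro e he
    obtain ⟨h4, h5, -⟩ := hS e he
    rw [star_mul_eq, h4, h5]
  have hprim : prim (⟨n, 1⟩ : GaussianInt) := by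
    unfold prim
    simp
  have hw0 : (⟨n, 1⟩ : GaussianInt) ≠ 0 := prim_ne_zero hprim
  have hinj : Set.InjOn (fun e : GaussianInt × GaussianInt => e.1) (S : Set _) := by
    intro e he e' he' hee
    have h4 := hw e he
    have h5 := hw e' he'
    simp only at hee
    rw [hee] at h4
    have h6 : star e'.1 ≠ 0 := by
      intro h
      rw [h, zero_mul] at h5
      exact hw0 h5.symm
    exact Prod.ext hee (mul_left_cancel₀ h6 (h4.trans h5.symm))
  rw [← card_image_of_injOn hinj]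
  have hsub : S.image (fun e => e.1) ⊆
      (Pool.Agent.W29.GM.units4).image (fun u => star (star e₀.1 * u)) := by
    intro v hv
    obtain ⟨e, he, rfl⟩ := mem_image.1 hv
    have ha : star e₀.1 ∣ (⟨n, 1⟩ : GaussianInt) := ⟨e₀.2, (hw e₀ he₀).symm⟩
    have hb : star e.1 ∣ (⟨n, 1⟩ : GaussianInt) := ⟨e.2, (hw e he).symm⟩
    obtain ⟨u, hu, hu2⟩ := Pool.Agent.W29.GM.assoc_of_nm hprim ha hb (by
      rw [nm_star, nm_star, h3, (hS e he).2.2])
    refine mem_image.2 ⟨u, Pool.Agent.W29.GM.mem_units4 hu, ?_⟩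
    rw [← hu2, star_star]
  refine (card_le_card hsub).trans (card_image_le.trans ?_)
  unfold Pool.Agent.W29.GM.units4
  exact card_le_four

/-- a positive proportion of the factorizations -/
theorem mu_pairs (e : ℤ) (he : e = 1 ∨ e = -1) :
    ∃ c : ℝ, 0 < c ∧ ∃ N₀ : ℕ, ∀ N : ℕ, N₀ ≤ N → c * N ≤
    (Set.ncard {p : ℕ × ℕ | 1 ≤ p.1 ∧ p.1 ≤ N ∧ 1 ≤ p.2 ∧ p.2 ≤ N ∧
      (∃ n : ℕ, p.1 * p.2 = n ^ 2 + 1) ∧ ArithmeticFunction.moebius (p.1 * p.2) = e} : ℝ) := by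
  classical
  obtain ⟨c, X₀, hc, h⟩ := bk_all e he
  refine ⟨c / 8, by positivity, ⌈X₀⌉₊, fun N hN => ?_⟩
  have hX : X₀ ≤ (N : ℝ) := (Nat.le_ceil _).trans (by exact_mod_cast hN)
  have h1 := h N hX
  set T := (Icc 1 N ×ˢ Icc 1 N).filter (fun p : ℕ × ℕ => (∃ n : ℕ, p.1 * p.2 = n ^ 2 + 1) ∧
      ArithmeticFunction.moebius (p.1 * p.2) = e) with hT
  have hmaps : ∀ x ∈ Bk 0 e (N : ℝ), (fun x : GaussianInt × GaussianInt => (nm x.1, nm x.2)) x ∈ T := by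
    intro x hx
    obtain ⟨hx1, hx2, hx3⟩ := mem_Bk.1 hx
    obtain ⟨m1, m2, m3⟩ := mem_dedge.1 hx1
    have hnn := NN_eq_nat m3
    have hsq : Squarefree (NN x) := (exc_zero (NN_ne m3)).1 (by omega)
    rw [hT, mem_filter, mem_product, Finset.mem_Icc, Finset.mem_Icc]
    refine ⟨⟨⟨nm_pos (pball_ne m1), by exact_mod_cast (mem_pball.1 m1).2⟩,
      ⟨nm_pos (pball_ne m2), by exact_mod_cast (mem_pball.1 m2).2⟩⟩, ⟨_, hnn⟩, ?_⟩
    change ArithmeticFunction.moebius (NN x) = e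
    rw [ArithmeticFunction.moebius_apply_of_squarefree hsq]
    exact hx3
  have hfib : ∀ p ∈ T, ((Bk 0 e (N : ℝ)).filter (fun x => (nm x.1, nm x.2) = p)).card ≤ 8 := by
    intro p hp
    rcases ((Bk 0 e (N : ℝ)).filter (fun x => (nm x.1, nm x.2) = p)).eq_empty_or_nonempty with
      h0 | ⟨x₀, hx₀⟩
    · rw [h0]; simp
    obtain ⟨k1, k2⟩ := mem_filter.1 hx₀
    have k3 := (mem_dedge.1 (mem_Bk.1 k1).1).2.2
    have k4 := NN_eq k3
    set n := ip x₀.1 x₀.2 with hn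
    have hsub : (Bk 0 e (N : ℝ)).filter (fun x => (nm x.1, nm x.2) = p) ⊆
        (Bk 0 e (N : ℝ)).filter (fun x => (nm x.1, nm x.2) = p ∧ ip x.1 x.2 = n) ∪
        (Bk 0 e (N : ℝ)).filter (fun x => (nm x.1, nm x.2) = p ∧ ip x.1 x.2 = -n) := by
      intro x hx
      obtain ⟨g1, g2⟩ := mem_filter.1 hx
      have g3 := (mem_dedge.1 (mem_Bk.1 g1).1).2.2
      have g4 := NN_eq g3
      have g5 : NN x = NN x₀ := by
        have := g2.trans k2.symm
        rw [Prod.mk.injEq] at this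
        unfold NN
        rw [this.1, this.2]
      rw [g5, k4] at g4
      have g6 : ip x.1 x.2 ^ 2 = n ^ 2 := by linarith
      rcases sq_eq_sq_iff_eq_or_eq_neg.1 g6 with g7 | g7
      · exact mem_union_left _ (mem_filter.2 ⟨g1, g2, g7⟩)
      · exact mem_union_right _ (mem_filter.2 ⟨g1, g2, g7⟩)
    have hc4 : ∀ m : ℤ, ((Bk 0 e (N : ℝ)).filter
        (fun x => (nm x.1, nm x.2) = p ∧ ip x.1 x.2 = m)).card ≤ 4 := by
      intro m
      refine card_pair_le m p.1 _ (fun x hx => ?_)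
      obtain ⟨g1, g2, g3⟩ := mem_filter.1 hx
      refine ⟨(mem_dedge.1 (mem_Bk.1 g1).1).2.2, g3, ?_⟩
      rw [← g2]
    have := (card_le_card hsub).trans ((card_union_le _ _).trans (Nat.add_le_add (hc4 n) (hc4 (-n))))
    omega
  have hcard : (Bk 0 e (N : ℝ)).card ≤ 8 * T.card :=
    card_le_mul_card_image_of_maps_to hmaps 8 hfib
  have hcard' : ((Bk 0 e (N : ℝ)).card : ℝ) ≤ 8 * (T.card : ℝ) := by exact_mod_cast hcard
  have hset : {p : ℕ × ℕ | 1 ≤ p.1 ∧ p.1 ≤ N ∧ 1 ≤ p.2 ∧ p.2 ≤ N ∧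
      (∃ n : ℕ, p.1 * p.2 = n ^ 2 + 1) ∧ ArithmeticFunction.moebius (p.1 * p.2) = e} =
      (T : Set (ℕ × ℕ)) := by
    ext p
    rw [hT]
    simp only [Set.mem_setOf_eq, coe_filter, mem_product, Finset.mem_Icc]
    tauto
  rw [hset, Set.ncard_coe_finset]
  linarith

end Pool.Agent.W78.GM
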