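import Pool.Agent.W78.GM.Basic
import Pool.Agent.H970R2.X.Rap

/-!
Project GM (helper78): the Matomaki-Radziwill theorem for the angles of Gaussian integers, from the
abstract machine and its inputs.
-/

set_option autoImplicit false

namespace Pool.Agent.W78.GM

open Finset Filter
open Pool.Agent.H376R2.MR Pool.Agent.H970R2.X

lemma w_nonneg' (s : ℝ) : 0 ≤ w s := le_max_left _ _

lemma w_le_one' (s : ℝ) : w s ≤ 1 := by
  unfold w
  exact max_le zero_le_one (by linarith [abs_nonneg s])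

lemma w_ne {s : ℝ} (h : w s ≠ 0) : |s| < 1 := by
  by_contra hcon
  apply h
  unfold w
  exact max_eq_left (by linarith [not_lt.mp hcon])

lemma bg_nonneg (Y : ℝ) (z : GaussianInt) : 0 ≤ bg Y z :=
  div_nonneg (w_nonneg' _) (Nat.cast_nonneg _)

lemma bg_le (Y : ℝ) (z : GaussianInt) : bg Y z ≤ 1 / nm z := by
  unfold bg
  exact div_le_div_of_nonneg_right (w_le_one' _) (Nat.cast_nonneg _)

lemma bg_ne {Y : ℝ} (hY : 0 < Y) {z : GaussianInt} (hz : z ≠ 0) (h : bg Y z ≠ 0) :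
    Y / Real.exp 1 ≤ (nm z : ℝ) ∧ (nm z : ℝ) ≤ Real.exp 1 * Y := by
  have hn := nm_posR hz
  have hw : w (Real.log (nm z) - Real.log Y) ≠ 0 := by
    intro h0
    apply h
    simp [bg, h0]
  have habs := w_ne hw
  rw [abs_lt] at habs
  constructor
  · rw [div_le_iff₀ (Real.exp_pos 1), ← Real.exp_log hY, ← Real.exp_log hn, ← Real.exp_add]
    exact Real.exp_le_exp.mpr (by linarith)
  · rw [← Real.exp_log hY, ← Real.exp_log hn, ← Real.exp_add]
    exact Real.exp_le_exp.mpr (by linarith)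

/-- the window has bounded mass -/
lemma win_mass (hlat : S_LAT) : ∃ C : ℝ, 0 < C ∧ ∀ Y : ℝ, Real.exp 3 ≤ Y →
    ∑ z ∈ win Y, 1 / (nm z : ℝ) ≤ C := by
  obtain ⟨C, hC, -, h2⟩ := hlat
  refine ⟨C + 6 * Real.pi, by positivity, fun Y hY => ?_⟩
  have hYpos : 0 < Y := (Real.exp_pos _).trans_le hY
  have hA : 1 ≤ Y / Real.exp 3 := by rwa [le_div_iff₀ (Real.exp_pos _), one_mul]
  have hAB : Y / Real.exp 3 ≤ Real.exp 2 * Y := by
    rw [div_le_iff₀ (Real.exp_pos _)]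
    have h3 : 1 ≤ Real.exp 2 := Real.one_le_exp (by norm_num)
    have h4 : 1 ≤ Real.exp 3 := Real.one_le_exp (by norm_num)
    nlinarith [mul_le_mul h3 h4 zero_le_one (by positivity : 0 ≤ Real.exp 2)]
  have h3 := h2 _ _ hA hAB
  have hsub : win Y ⊆ ann (Y / Real.exp 3) (Real.exp 2 * Y) := by
    intro z hz
    rw [mem_win] at hz
    rw [mem_ann]
    refine ⟨hz.1, lt_of_lt_of_le ?_ hz.2.1, hz.2.2⟩
    exact div_lt_div_of_pos_left hYpos (Real.exp_pos _) (Real.exp_lt_exp.2 (by norm_num))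
  have h4 : ∑ z ∈ win Y, 1 / (nm z : ℝ) ≤
      ∑ z ∈ ann (Y / Real.exp 3) (Real.exp 2 * Y), 1 / (nm z : ℝ) :=
    sum_le_sum_of_subset_of_nonneg hsub fun _ _ _ => by positivity
  have h5 := (abs_le.1 h3).2
  have h6 : Real.log (Real.exp 2 * Y / (Y / Real.exp 3)) = 5 := by
    have : Real.exp 2 * Y / (Y / Real.exp 3) = Real.exp 5 := by
      rw [show (5 : ℝ) = 2 + 3 by norm_num, Real.exp_add]
      field_simp
    rw [this, Real.log_exp]
  rw [h6] at h5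
  have h7 : C / Real.sqrt (Y / Real.exp 3) ≤ C := by
    apply div_le_self hC.le
    rw [Real.one_le_sqrt]
    exact hA
  have := Real.pi_pos
  linarith

theorem mr_of (hmach : S_MACH) (hdec : S_DEC) (hmomp : S_MOMP) (hmom : S_MOM) (hsp : S_SPARSE)
    (hls : S_LS) (hcell : S_CELLG) (hlat : S_LAT) : S_MR := by
  refine hmach PG mG (GA gl) ?_
  refine
    { m_nonneg := ?_, rich := ?_, cell_bound := hcell, dec := ?_, mom_zero := hmomp.1 gl bddG_gl,
      momP := hmomp.2, mom := hmom gl bddG_gl, sparse := ?_ }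
  · intro H v
    unfold mG mmp
    exact sum_nonneg fun p _ => by positivity
  · obtain ⟨c, hc, hR⟩ := rich_ap 4 (by norm_num)
    obtain ⟨C, hC⟩ := hR.1
    exact ⟨c, hc, C, fun H v₀ v₁ h1 h2 h3 => hC H v₀ v₁ h1 h2 h3⟩
  · obtain ⟨C₁, hC₁, h1⟩ := hdec gl bddG_gl flipG_gl
    obtain ⟨C₂, hC₂, h2⟩ := hls
    obtain ⟨β, hβ, C₃, hC₃, Z₀, h3⟩ := hsp
    have he : 0 < Real.exp 2 := Real.exp_pos _
    refine ⟨C₂ * (1 + Real.exp 2) * C₁ + C₃ * C₁, by positivity, β, hβ, Z₀, ?_⟩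
    intro H v₀ v₁ hH hHv hW Y hY
    obtain ⟨s, a, hs, hG, ha⟩ := h1 H v₀ v₁ hH hHv hW Y hY
    have hY1 : 1 ≤ Y := by
      refine le_trans ?_ hY
      exact Real.one_le_exp (by positivity)
    have hY0 : 0 < Y := by linarith
    have hB : 0 ≤ 1 / (∑ v ∈ Ico v₀ v₁, mG H v) + 1 / (H : ℝ) ^ 2 := by positivity
    refine ⟨fun k => DPG s a k, hG, ?_, ?_⟩
    · intro K hK hKY
      have h4 := h2 (Real.exp 2 * Y) K s a (by
        have : 1 ≤ Real.exp 2 := Real.one_le_exp (by norm_num)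
        nlinarith) hK hs
      have h5 : 0 ≤ ∑ z ∈ s, ‖a z‖ ^ 2 := sum_nonneg fun _ _ => by positivity
      calc ∑ k ∈ FK K, ‖DPG s a k‖ ^ 2 ≤ C₂ * (K + Real.exp 2 * Y) * ∑ z ∈ s, ‖a z‖ ^ 2 := h4
        _ ≤ C₂ * (Y + Real.exp 2 * Y) * ∑ z ∈ s, ‖a z‖ ^ 2 := by gcongr
        _ = C₂ * (1 + Real.exp 2) * (Y * ∑ z ∈ s, ‖a z‖ ^ 2) := by ring
        _ ≤ C₂ * (1 + Real.exp 2) * (C₁ * (1 / (∑ v ∈ Ico v₀ v₁, mG H v) + 1 / (H : ℝ) ^ 2)) := by
            gcongr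
        _ ≤ _ := by
            have : 0 ≤ C₃ * C₁ * (1 / (∑ v ∈ Ico v₀ v₁, mG H v) + 1 / (H : ℝ) ^ 2) := by positivity
            linarith
    · intro hZ U hU hcard
      have h4 := h3 Y hZ U hU hcard s a (fun z hz =>
        ⟨one_le_nm.2 (prim_ne_zero (hs z hz).1), (hs z hz).2⟩)
      calc ∑ k ∈ U, ‖DPG s a k‖ ^ 2 ≤ C₃ * Y * ∑ z ∈ s, ‖a z‖ ^ 2 := h4
        _ = C₃ * (Y * ∑ z ∈ s, ‖a z‖ ^ 2) := by ring
        _ ≤ C₃ * (C₁ * (1 / (∑ v ∈ Ico v₀ v₁, mG H v) + 1 / (H : ℝ) ^ 2)) := by gcongr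
        _ ≤ _ := by
            have : 0 ≤ C₂ * (1 + Real.exp 2) * C₁ *
                (1 / (∑ v ∈ Ico v₀ v₁, mG H v) + 1 / (H : ℝ) ^ 2) := by positivity
            linarith
  · obtain ⟨β, hβ, C₃, hC₃, Z₀, h3⟩ := hsp
    obtain ⟨C₄, hC₄, h4⟩ := win_mass hlat
    have he2 : 0 < Real.exp 2 := Real.exp_pos _
    refine ⟨C₃ * (Real.exp 2 * C₄), by positivity, β, hβ, max Z₀ (Real.exp 3), ?_⟩
    intro Z hZ U hU hcard
    have hZ0 : Z₀ ≤ Z := (le_max_left _ _).trans hZ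
    have hZ3 : Real.exp 3 ≤ Z := (le_max_right _ _).trans hZ
    have hZpos : 0 < Z := (Real.exp_pos _).trans_le hZ3
    have he12 : Real.exp 1 ≤ Real.exp 2 := Real.exp_le_exp.2 (by norm_num)
    set s := (pball (Real.exp 1 * Z)).filter (fun z => bg Z z ≠ 0) with hs
    have hsw : s ⊆ win Z := by
      intro z hz
      rw [hs, mem_filter, mem_pball] at hz
      have hz0 := prim_ne_zero hz.1.1
      have h5 := bg_ne hZpos hz0 hz.2
      rw [mem_win]
      refine ⟨one_le_nm.2 hz0, le_trans ?_ h5.1, h5.2.trans ?_⟩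
      · exact div_le_div_of_nonneg_left hZpos.le (Real.exp_pos _) he12
      · exact mul_le_mul_of_nonneg_right he12 hZpos.le
    have hGA : ∀ k : ℤ, GA gl Z k = DPG s (fun z => (gl z : ℂ) * (bg Z z : ℂ)) k := by
      intro k
      unfold GA DPG
      symm
      refine Finset.sum_filter_of_ne fun z _ hne h0 => ?_
      apply hne
      simp [h0]
    have h5 := h3 Z hZ0 U hU hcard s (fun z => (gl z : ℂ) * (bg Z z : ℂ)) (fun z hz => by
      have := hsw hz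
      rw [mem_win] at this
      exact ⟨this.1, this.2.2⟩)
    have h6 : Z * ∑ z ∈ s, ‖(gl z : ℂ) * (bg Z z : ℂ)‖ ^ 2 ≤ Real.exp 2 * C₄ := by
      rw [Finset.mul_sum]
      calc ∑ z ∈ s, Z * ‖(gl z : ℂ) * (bg Z z : ℂ)‖ ^ 2
          ≤ ∑ z ∈ s, Real.exp 2 * (1 / (nm z : ℝ)) := by
            refine sum_le_sum fun z hz => ?_
            have hzw := hsw hz
            rw [mem_win] at hzw
            have hn : (0 : ℝ) < nm z := by exact_mod_cast hzw.1
            have h7 : ‖(gl z : ℂ) * (bg Z z : ℂ)‖ ≤ 1 / nm z := by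
              rw [norm_mul, Complex.norm_intCast, Complex.norm_real, Real.norm_eq_abs,
                abs_of_nonneg (bg_nonneg _ _)]
              have h8 : |(gl z : ℝ)| ≤ 1 := by exact_mod_cast bddG_gl z
              calc |(gl z : ℝ)| * bg Z z ≤ 1 * (1 / nm z) :=
                    mul_le_mul h8 (bg_le _ _) (bg_nonneg _ _) zero_le_one
                _ = 1 / nm z := one_mul _
            have h9 : Z ≤ Real.exp 2 * nm z := by
              have := hzw.2.1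
              rw [div_le_iff₀ he2] at this
              linarith
            calc Z * ‖(gl z : ℂ) * (bg Z z : ℂ)‖ ^ 2 ≤ (Real.exp 2 * nm z) * (1 / nm z) ^ 2 := by
                  gcongr
              _ = Real.exp 2 * (1 / (nm z : ℝ)) := by field_simp
        _ = Real.exp 2 * ∑ z ∈ s, 1 / (nm z : ℝ) := by rw [Finset.mul_sum]
        _ ≤ Real.exp 2 * ∑ z ∈ win Z, 1 / (nm z : ℝ) := by
            gcongr
        _ ≤ Real.exp 2 * C₄ := by
            gcongr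
            exact h4 Z hZ3
    calc ∑ k ∈ U, ‖GA gl Z k‖ ^ 2
        = ∑ k ∈ U, ‖DPG s (fun z => (gl z : ℂ) * (bg Z z : ℂ)) k‖ ^ 2 := by
          refine sum_congr rfl fun k _ => by rw [hGA k]
      _ ≤ C₃ * Z * ∑ z ∈ s, ‖(gl z : ℂ) * (bg Z z : ℂ)‖ ^ 2 := h5
      _ = C₃ * (Z * ∑ z ∈ s, ‖(gl z : ℂ) * (bg Z z : ℂ)‖ ^ 2) := by ring
      _ ≤ C₃ * (Real.exp 2 * C₄) := by gcongr

end Pool.Agent.W78.GM
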