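import Pool.Agent.W78.GM.MR
import Pool.Agent.H376R2.MR.Fej

/-!
Project GM (helper78): a positive proportion of the Farey edges are sign changes.
-/

set_option autoImplicit false

namespace Pool.Agent.W78.GM

open Finset Filter
open Pool.Agent.H376R2.MR Pool.Agent.H970R2.X

/-- the angular polynomial of the constant function -/
noncomputable def A1 (Y : ℝ) (k : ℤ) : ℂ :=
  DPG (pball (Real.exp 1 * Y)) (fun z => (bg Y z : ℂ)) k

lemma cos_eq_re {z u : GaussianInt} (hz : z ≠ 0) (hu : u ≠ 0) (k : ℤ) :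
    Real.cos (k * (ang z - ang u)) = (ps k z * (starRingEnd ℂ) (ps k u)).re := by
  rw [ps_eq_exp hz, ps_eq_exp hu, ← Complex.exp_conj, ← Complex.exp_add]
  rw [map_mul, Complex.conj_I, Complex.conj_ofReal]
  have : ((k * ang z : ℝ) : ℂ) * Complex.I + ((k * ang u : ℝ) : ℂ) * -Complex.I =
      ((k * (ang z - ang u) : ℝ) : ℂ) * Complex.I := by
    push_cast
    ring
  rw [this, Complex.exp_ofReal_mul_I_re]

lemma dsum_eq (s : Finset GaussianInt) (hs : ∀ z ∈ s, z ≠ 0) (f g : GaussianInt → ℝ)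
    {u : GaussianInt} (hu : u ≠ 0) (K : ℕ) :
    ∑ z ∈ s, ∑ z' ∈ s, f z * g z' * Fj K (ang z - ang (u * z')) =
      ∑ k ∈ FK K, (1 - |(k : ℝ)| / K) *
        ((DPG s (fun z => (f z : ℂ)) k) * (starRingEnd ℂ) (DPG s (fun z => (g z : ℂ)) k) *
          (starRingEnd ℂ) (ps k u)).re := by
  have h1 : ∀ z ∈ s, ∀ z' ∈ s, f z * g z' * Fj K (ang z - ang (u * z')) =
      ∑ k ∈ FK K, (1 - |(k : ℝ)| / K) * (((f z : ℂ) * ps k z) *
        (starRingEnd ℂ) ((g z' : ℂ) * ps k z') * (starRingEnd ℂ) (ps k u)).re := by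
    intro z hz z' hz'
    unfold Fj
    rw [mul_sum]
    refine sum_congr rfl fun k _ => ?_
    rw [cos_eq_re (hs z hz) (mul_ne_zero hu (hs z' hz')), ps_mul]
    have : ((f z : ℂ) * ps k z) * (starRingEnd ℂ) ((g z' : ℂ) * ps k z') *
        (starRingEnd ℂ) (ps k u) = ((f z * g z' : ℝ) : ℂ) *
        (ps k z * (starRingEnd ℂ) (ps k u * ps k z')) := by
      simp only [map_mul, Complex.conj_ofReal]
      push_cast
      ring
    rw [this, Complex.re_ofReal_mul]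
    ring
  rw [sum_congr rfl fun z hz => sum_congr rfl fun z' hz' => h1 z hz z' hz']
  rw [sum_congr rfl fun z _ => sum_comm, sum_comm]
  refine sum_congr rfl fun k _ => ?_
  rw [sum_congr rfl fun z _ => (mul_sum _ _ _).symm, ← mul_sum]
  congr 1
  rw [sum_congr rfl fun z _ => (Complex.re_sum _ _).symm, ← Complex.re_sum]
  congr 1
  unfold DPG
  rw [map_sum, sum_mul_sum, sum_mul]
  refine sum_congr rfl fun z _ => ?_
  rw [sum_mul]

lemma pball_ne {X : ℝ} {z : GaussianInt} (h : z ∈ pball X) : z ≠ 0 :=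
  prim_ne_zero (mem_pball.1 h).1

lemma gl_mul' {u z : GaussianInt} (hu : u ≠ 0) (hz : z ≠ 0) : gl (u * z) = gl u * gl z := by
  unfold gl
  rw [nm_mul, lam_mul (nm_pos hu).ne' (nm_pos hz).ne']

/-- the sum over pairs of different signs in terms of the polynomials -/
lemma rsum_eq (Y : ℝ) {u : GaussianInt} (hu : u ≠ 0) (K : ℕ) :
    ∑ z ∈ pball (Real.exp 1 * Y), ∑ z' ∈ pball (Real.exp 1 * Y),
      bg Y z * bg Y z' * (1 - (gl z : ℝ) * (gl (u * z') : ℝ)) * Fj K (ang z - ang (u * z')) =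
    ∑ k ∈ FK K, (1 - |(k : ℝ)| / K) * ((ps k u).re *
      (‖A1 Y k‖ ^ 2 - (gl u : ℝ) * ‖GA gl Y k‖ ^ 2)) := by
  set s := pball (Real.exp 1 * Y) with hs
  have hs0 : ∀ z ∈ s, z ≠ 0 := fun z hz => pball_ne hz
  have h1 := dsum_eq s hs0 (bg Y) (bg Y) hu K
  have h2 := dsum_eq s hs0 (fun z => (gl z : ℝ) * bg Y z) (fun z => (gl z : ℝ) * bg Y z) hu K
  have h3 : ∑ z ∈ s, ∑ z' ∈ s,
      bg Y z * bg Y z' * (1 - (gl z : ℝ) * (gl (u * z') : ℝ)) * Fj K (ang z - ang (u * z')) =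
      ∑ z ∈ s, ∑ z' ∈ s, bg Y z * bg Y z' * Fj K (ang z - ang (u * z')) -
      (gl u : ℝ) * ∑ z ∈ s, ∑ z' ∈ s, ((gl z : ℝ) * bg Y z) * ((gl z' : ℝ) * bg Y z') *
        Fj K (ang z - ang (u * z')) := by
    rw [mul_sum, ← sum_sub_distrib]
    refine sum_congr rfl fun z hz => ?_
    rw [mul_sum, ← sum_sub_distrib]
    refine sum_congr rfl fun z' hz' => ?_
    rw [gl_mul' hu (hs0 z' hz')]
    push_cast
    ring
  rw [h3, h1, h2, mul_sum, ← sum_sub_distrib]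
  refine sum_congr rfl fun k _ => ?_
  have h4 : ∀ D : ℂ, (D * (starRingEnd ℂ) D * (starRingEnd ℂ) (ps k u)).re =
      (ps k u).re * ‖D‖ ^ 2 := by
    intro D
    rw [Complex.mul_conj, Complex.normSq_eq_norm_sq, Complex.re_ofReal_mul, Complex.conj_re]
    ring
  have h5 : DPG s (fun z => (((gl z : ℝ) * bg Y z : ℝ) : ℂ)) k = GA gl Y k := by
    unfold GA
    congr 1
    funext z
    push_cast
    rfl
  have h6 : DPG s (fun z => (bg Y z : ℂ)) k = A1 Y k := rfl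
  rw [h4, h4, h5, h6]
  ring

lemma nm_one_one : nm (⟨1, 1⟩ : GaussianInt) = 2 := by
  simp [nm]

lemma gl_one_one : gl (⟨1, 1⟩ : GaussianInt) = -1 := by
  unfold gl
  rw [nm_one_one]
  exact lam_prime Nat.prime_two

lemma gl_one : gl (1 : GaussianInt) = 1 := by
  unfold gl
  rw [nm_one]
  simp [lam]

lemma one_one_ne : (⟨1, 1⟩ : GaussianInt) ≠ 0 := by
  intro h
  have := congrArg Zsqrtd.re h
  simp at this

lemma bg_le' {Y : ℝ} (hY : 0 < Y) {z : GaussianInt} (hz : z ≠ 0) : bg Y z ≤ Real.exp 1 / Y := by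
  by_cases h : bg Y z = 0
  · rw [h]; positivity
  · have h1 := (bg_ne hY hz h).1
    have hn := nm_posR hz
    refine (bg_le Y z).trans ?_
    rw [div_le_div_iff₀ hn hY, one_mul]
    rw [div_le_iff₀ (Real.exp_pos 1)] at h1
    linarith

lemma rsum_le {Y : ℝ} (hY : 0 < Y) (u : GaussianInt) (K : ℕ) :
    ∑ z ∈ pball (Real.exp 1 * Y), ∑ z' ∈ pball (Real.exp 1 * Y),
      bg Y z * bg Y z' * (1 - (gl z : ℝ) * (gl (u * z') : ℝ)) * Fj K (ang z - ang (u * z')) ≤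
    2 * (Real.exp 1 / Y) ^ 2 * (open scoped Classical in
    ∑ z ∈ pball (Real.exp 1 * Y), ∑ z' ∈ pball (Real.exp 1 * Y),
      (if gl z ≠ gl (u * z') then Fj K (ang z - ang (u * z')) else 0)) := by
  classical
  rw [mul_sum]
  refine sum_le_sum fun z hz => ?_
  rw [mul_sum]
  refine sum_le_sum fun z' hz' => ?_
  have hF := Fj_nonneg K (ang z - ang (u * z'))
  have ha := bg_le' hY (pball_ne hz)
  have hb := bg_le' hY (pball_ne hz')
  have ha0 := bg_nonneg Y z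
  have hb0 := bg_nonneg Y z'
  have hab : bg Y z * bg Y z' ≤ (Real.exp 1 / Y) ^ 2 := by
    rw [pow_two]
    exact mul_le_mul ha hb hb0 (ha0.trans ha)
  have hab0 : 0 ≤ bg Y z * bg Y z' := mul_nonneg ha0 hb0
  have hg : gl z = 1 ∨ gl z = -1 := lam_eq _
  have hg' : gl (u * z') = 1 ∨ gl (u * z') = -1 := lam_eq _
  have hsame : gl z = gl (u * z') → bg Y z * bg Y z' * (1 - (gl z : ℝ) * (gl (u * z') : ℝ)) *
      Fj K (ang z - ang (u * z')) = 0 := by
    intro h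
    rw [h]
    have : (gl (u * z') : ℝ) * (gl (u * z') : ℝ) = 1 := by
      rcases hg' with h | h <;> rw [h] <;> norm_num
    rw [this]; ring
  by_cases h : gl z ≠ gl (u * z')
  · rw [if_pos h]
    have : (gl z : ℝ) * (gl (u * z') : ℝ) = -1 := by
      rcases hg with h1 | h1 <;> rcases hg' with h2 | h2
      · exact absurd (h1.trans h2.symm) h
      · rw [h1, h2]; norm_num
      · rw [h1, h2]; norm_num
      · exact absurd (h1.trans h2.symm) h
    rw [this]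
    have := mul_le_mul_of_nonneg_right hab hF
    nlinarith
  · rw [if_neg h, hsame (not_not.1 h)]
    simp

lemma low_bound (Y : ℝ) {K : ℕ} (hKpos : (0 : ℝ) < K) :
    2 * ‖A1 Y 0‖ ^ 2 ≤ ∑ k ∈ FK K, (1 - |(k : ℝ)| / K) * ((ps k 1).re *
      (‖A1 Y k‖ ^ 2 - (gl 1 : ℝ) * ‖GA gl Y k‖ ^ 2)) +
      ∑ k ∈ FK K, (1 - |(k : ℝ)| / K) * ((ps k ⟨1, 1⟩).re *
      (‖A1 Y k‖ ^ 2 - (gl ⟨1, 1⟩ : ℝ) * ‖GA gl Y k‖ ^ 2)) +
      2 * ∑ k ∈ (FK K).erase 0, ‖GA gl Y k‖ ^ 2 := by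
  have hKn : 1 ≤ K := by exact_mod_cast hKpos
  rw [← sum_add_distrib]
  have h0 : (0 : ℤ) ∈ FK K := by
    rw [FK, Finset.mem_Ioo]
    omega
  rw [← Finset.add_sum_erase _ _ h0, mul_sum, add_assoc, ← sum_add_distrib]
  have h1 : (1 - |((0 : ℤ) : ℝ)| / K) * ((ps 0 1).re *
    (‖A1 Y 0‖ ^ 2 - (gl 1 : ℝ) * ‖GA gl Y 0‖ ^ 2)) +
    (1 - |((0 : ℤ) : ℝ)| / K) * ((ps 0 ⟨1, 1⟩).re *
    (‖A1 Y 0‖ ^ 2 - (gl ⟨1, 1⟩ : ℝ) * ‖GA gl Y 0‖ ^ 2)) = 2 * ‖A1 Y 0‖ ^ 2 := by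
    rw [gl_one, gl_one_one, ps_zero, ps_zero]
    simp
    ring
  rw [h1]
  refine le_add_of_nonneg_right (sum_nonneg fun k hk => ?_)
  rw [mem_erase, FK, Finset.mem_Ioo] at hk
  have hw0 : 0 ≤ 1 - |(k : ℝ)| / K := by
    rw [sub_nonneg, div_le_one hKpos]
    rw [abs_le]
    constructor
    · have : ((-(K : ℤ) : ℤ) : ℝ) < (k : ℝ) := by exact_mod_cast hk.2.1
      push_cast at this
      linarith
    · have : (k : ℝ) < ((K : ℤ) : ℝ) := by exact_mod_cast hk.2.2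
      push_cast at this
      linarith
  have hw1 : 1 - |(k : ℝ)| / K ≤ 1 := by
    have : 0 ≤ |(k : ℝ)| / K := by positivity
    linarith
  have hps1 : ps k 1 = 1 := by
    have := ps_natCast (c := 1) one_pos k
    simpa using this
  have hc1 : (ps k ⟨1, 1⟩).re ≤ 1 := by
    have := (Complex.abs_re_le_norm (ps k ⟨1, 1⟩)).trans (norm_ps_le _ k)
    exact (abs_le.1 this).2
  have hc2 : -1 ≤ (ps k ⟨1, 1⟩).re := by
    have := (Complex.abs_re_le_norm (ps k ⟨1, 1⟩)).trans (norm_ps_le _ k)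
    exact (abs_le.1 this).1
  rw [gl_one, gl_one_one, hps1]
  push_cast
  rw [Complex.one_re]
  set c := (ps k ⟨1, 1⟩).re
  set W := 1 - |(k : ℝ)| / K
  have hA : 0 ≤ ‖A1 Y k‖ ^ 2 := by positivity
  have hB : 0 ≤ ‖GA gl Y k‖ ^ 2 := by positivity
  have e : W * (1 * (‖A1 Y k‖ ^ 2 - 1 * ‖GA gl Y k‖ ^ 2)) +
      W * (c * (‖A1 Y k‖ ^ 2 - -1 * ‖GA gl Y k‖ ^ 2)) + 2 * ‖GA gl Y k‖ ^ 2 =
      W * (1 + c) * ‖A1 Y k‖ ^ 2 + (W * (1 + c) + 2 * (1 - W)) * ‖GA gl Y k‖ ^ 2 := by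
    ring
  rw [e]
  have : 0 ≤ W * (1 + c) := mul_nonneg hw0 (by linarith)
  have : 0 ≤ W * (1 + c) + 2 * (1 - W) := by linarith
  positivity

lemma final_bound {C h T Y K S : ℝ} (hC : 0 < C) (hh : 1 ≤ h) (hT1 : 1 ≤ T) (hYpos : 0 < Y)
    (hKpos : 0 < K) (hK3 : Y / (2 * h) ≤ K) (hKY : K ≤ Y) (hs : 0 ≤ S) :
    2 * (Real.exp 1 / Y) ^ 2 * (C * (K * (T * (Real.exp 1 * Y) / K + 1) ^ 2 * S +
      (Real.exp 1 * Y) ^ 2 / T + (Real.exp 1 * Y) * K / T ^ 2)) ≤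
      16 * Real.exp 4 * C * h * T ^ 2 * S / Y + 4 * Real.exp 4 * C / T := by
  have he : 1 ≤ Real.exp 1 := Real.one_le_exp (by norm_num)
  have hhp : 0 < h := by linarith
  obtain ⟨X, hXdef⟩ : ∃ X : ℝ, X = Real.exp 1 * Y := ⟨_, rfl⟩
  rw [← hXdef]
  have hYX : Y ≤ X := by rw [hXdef]; nlinarith
  have hXpos : 0 < X := by linarith
  have h2 : 0 ≤ 2 * (Real.exp 1 / Y) ^ 2 := by positivity
  -- bounds of the three terms
  have ha : K * (T * X / K + 1) ^ 2 ≤ 8 * h * T ^ 2 * X ^ 2 / Y := by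
    have h3 : 1 ≤ T * X / K := by
      rw [le_div_iff₀ hKpos, one_mul]
      nlinarith
    have h4 : (T * X / K + 1) ^ 2 ≤ (2 * (T * X / K)) ^ 2 := by
      apply pow_le_pow_left₀ (by positivity)
      linarith
    have h5 : K * (T * X / K + 1) ^ 2 ≤ K * (2 * (T * X / K)) ^ 2 :=
      mul_le_mul_of_nonneg_left h4 hKpos.le
    have h6 : K * (2 * (T * X / K)) ^ 2 = 4 * T ^ 2 * X ^ 2 / K := by
      field_simp
      ring
    have h7 : 4 * T ^ 2 * X ^ 2 / K ≤ 4 * T ^ 2 * X ^ 2 / (Y / (2 * h)) :=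
      div_le_div_of_nonneg_left (by positivity) (by positivity) hK3
    have h8 : 4 * T ^ 2 * X ^ 2 / (Y / (2 * h)) = 8 * h * T ^ 2 * X ^ 2 / Y := by
      field_simp
      ring
    linarith
  have hb : X * K / T ^ 2 ≤ X ^ 2 / T := by
    rw [div_le_div_iff₀ (by positivity) (by positivity)]
    have : X * K * T ≤ X * X * T ^ 2 := by
      have h9 : (K : ℝ) ≤ X := hKY.trans hYX
      have : T ≤ T ^ 2 := by nlinarith
      have hX0 : 0 ≤ X := by linarith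
      calc X * K * T ≤ X * X * T := by gcongr
        _ ≤ X * X * T ^ 2 := by gcongr
    nlinarith
  have hc : C * (K * (T * X / K + 1) ^ 2 * S + X ^ 2 / T + X * K / T ^ 2) ≤
      C * (8 * h * T ^ 2 * X ^ 2 / Y * S + 2 * (X ^ 2 / T)) := by
    apply mul_le_mul_of_nonneg_left _ hC.le
    have := mul_le_mul_of_nonneg_right ha hs
    linarith
  refine (mul_le_mul_of_nonneg_left hc h2).trans (le_of_eq ?_)
  rw [hXdef]
  have e4 : Real.exp 4 = Real.exp 1 ^ 4 := by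
    rw [← Real.exp_nat_mul]; norm_num
  rw [e4]
  field_simp
  ring

theorem sc_of (hmr : S_MR) (hpair : S_PAIR) (hA0 : S_A0) : S_SC := by
  classical
  obtain ⟨C, hC, hpair⟩ := hpair
  obtain ⟨YA, hA0⟩ := hA0
  obtain ⟨h, hh, YM, hmr⟩ := hmr (1 / 4) (by norm_num)
  set T : ℝ := 16 * Real.exp 4 * C + 1 with hT
  have hT1 : 1 ≤ T := by rw [hT]; have := Real.exp_pos 4; nlinarith [mul_pos this hC]
  have he1 : (0 : ℝ) < Real.exp 1 := Real.exp_pos 1
  have hhp : 0 < h := by linarith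
  refine ⟨1 / (64 * Real.exp 5 * C * h * T ^ 2), by positivity,
    2 * Real.exp 1 * (|YA| + |YM| + 4 * h * T + 2), fun X' hX' => ?_⟩
  set Y : ℝ := X' / (2 * Real.exp 1) with hYdef
  have hYbig : |YA| + |YM| + 4 * h * T + 2 ≤ Y := by
    rw [hYdef, le_div_iff₀ (by positivity)]
    linarith
  have hYA : YA ≤ Y := by
    have := le_abs_self YA
    have := abs_nonneg YM
    nlinarith [mul_pos hhp (by linarith : 0 < T)]
  have hYM : YM ≤ Y := by
    have := le_abs_self YM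
    have := abs_nonneg YA
    nlinarith [mul_pos hhp (by linarith : 0 < T)]
  have hY4 : 4 * h * T ≤ Y := by
    have := abs_nonneg YM
    have := abs_nonneg YA
    linarith
  have hhT : 1 ≤ h * T := by nlinarith
  have hYpos : 0 < Y := by nlinarith
  set K : ℕ := ⌊Y / h⌋₊ with hK
  have hYh : 4 * T ≤ Y / h := by
    rw [le_div_iff₀ hhp]; linarith
  have hK1 : (K : ℝ) ≤ Y / h := Nat.floor_le (by positivity)
  have hK2 : Y / h - 1 < K := Nat.sub_one_lt_floor _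
  have hK3 : Y / (2 * h) ≤ K := by
    have : Y / (2 * h) = (Y / h) / 2 := by field_simp
    rw [this]
    linarith
  have hK4 : 2 * T ≤ K := by linarith
  have hKpos : (0 : ℝ) < K := by linarith
  have hKn : 1 ≤ K := by exact_mod_cast hKpos
  have hKY : (K : ℝ) ≤ Y := hK1.trans (div_le_self hYpos.le hh)
  set X : ℝ := Real.exp 1 * Y with hXdef
  have he : 1 ≤ Real.exp 1 := Real.one_le_exp (by norm_num)
  have hYX : Y ≤ X := by rw [hXdef]; nlinarith
  have hX1 : 1 ≤ X := by nlinarith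
  have h2X : 2 * X = X' := by
    rw [hXdef, hYdef]; field_simp
  -- the two inequalities
  have hR : ∀ u : GaussianInt, (u = 1 ∨ u = ⟨1, 1⟩) →
      ∑ k ∈ FK K, (1 - |(k : ℝ)| / K) * ((ps k u).re *
      (‖A1 Y k‖ ^ 2 - (gl u : ℝ) * ‖GA gl Y k‖ ^ 2)) ≤
      16 * Real.exp 4 * C * h * T ^ 2 * ((sedge X').card : ℝ) / Y + 4 * Real.exp 4 * C / T := by
    intro u hu
    have hu0 : u ≠ 0 := by
      rcases hu with rfl | rfl
      · exact one_ne_zero
      · exact one_one_ne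
    rw [← rsum_eq Y hu0 K]
    refine (rsum_le hYpos u K).trans ?_
    have h1 := hpair X T K u hX1 hT1 hKn hK4 hu
    rw [h2X] at h1
    have h2 : 0 ≤ 2 * (Real.exp 1 / Y) ^ 2 := by positivity
    refine (mul_le_mul_of_nonneg_left h1 h2).trans ?_
    have hs : (0 : ℝ) ≤ ((sedge X').card : ℝ) := Nat.cast_nonneg _
    exact final_bound hC hh hT1 hYpos hKpos hK3 hKY hs
  have hR1 := hR 1 (Or.inl rfl)
  have hR2 := hR ⟨1, 1⟩ (Or.inr rfl)
  have hG := hmr Y hYM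
  rw [← hK] at hG
  have hlow := low_bound Y hKpos
  have hA1 : 1 ≤ ‖A1 Y 0‖ ^ 2 := by
    have h1 : A1 Y 0 = ((∑ z ∈ pball (Real.exp 1 * Y), bg Y z : ℝ) : ℂ) := by
      unfold A1 DPG
      simp
    have h2 := hA0 Y hYA
    rw [h1, Complex.norm_real, Real.norm_of_nonneg (by linarith)]
    nlinarith
  have hT2 : 4 * Real.exp 4 * C / T ≤ 1 / 4 := by
    rw [div_le_div_iff₀ (by linarith) (by norm_num)]
    linarith
  have hfin : 1 ≤ 32 * Real.exp 4 * C * h * T ^ 2 * ((sedge X').card : ℝ) / Y := by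
    have h2 : 32 * Real.exp 4 * C * h * T ^ 2 * ((sedge X').card : ℝ) / Y =
      16 * Real.exp 4 * C * h * T ^ 2 * ((sedge X').card : ℝ) / Y +
      16 * Real.exp 4 * C * h * T ^ 2 * ((sedge X').card : ℝ) / Y := by ring
    rw [h2]
    linarith
  rw [le_div_iff₀ hYpos, one_mul] at hfin
  have hXY : X' = 2 * Real.exp 1 * Y := by
    rw [hYdef]; field_simp
  have e5 : Real.exp 5 = Real.exp 4 * Real.exp 1 := by
    rw [← Real.exp_add]; norm_num
  generalize ((sedge X').card : ℝ) = S at hfin ⊢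
  rw [hXY, e5, div_mul_eq_mul_div, one_mul, div_le_iff₀ (by positivity)]
  calc 2 * Real.exp 1 * Y ≤ 2 * Real.exp 1 * (32 * Real.exp 4 * C * h * T ^ 2 * S) :=
        mul_le_mul_of_nonneg_left hfin (by positivity)
    _ = S * (64 * (Real.exp 4 * Real.exp 1) * C * h * T ^ 2) := by ring

end Pool.Agent.W78.GM
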