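import Pool.Agent.W78.GM.Defs2

/-!
Project GM (helper78): from a positive proportion of sign changes on Farey edges to the values of the
Moebius function at `n^2+1`.
-/

set_option autoImplicit false

namespace Pool.Agent.W78.GM

open Finset Filter
open Pool.Agent.H376R2.MR Pool.Agent.H970R2.X

open scoped Classical in
/-- pairs of determinant one with excess at most `k` and sign `s` -/
noncomputable def Bk (k : ℕ) (s : ℤ) (X : ℝ) : Finset (GaussianInt × GaussianInt) :=
  (dedge X).filter (fun e => exc (NN e) ≤ k ∧ lam (NN e) = s)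

lemma mem_dedge {X : ℝ} {e : GaussianInt × GaussianInt} :
    e ∈ dedge X ↔ e.1 ∈ pball X ∧ e.2 ∈ pball X ∧ dt e.1 e.2 = 1 := by
  simp [dedge, and_assoc]

lemma mem_Bk {k : ℕ} {s : ℤ} {X : ℝ} {e : GaussianInt × GaussianInt} :
    e ∈ Bk k s X ↔ e ∈ dedge X ∧ exc (NN e) ≤ k ∧ lam (NN e) = s := by
  simp [Bk]

lemma NN_eq {e : GaussianInt × GaussianInt} (h : dt e.1 e.2 = 1) :
    (NN e : ℤ) = ip e.1 e.2 ^ 2 + 1 := by
  unfold NN
  push_cast
  rw [ip_dt, h]
  ring

lemma NN_eq_nat {e : GaussianInt × GaussianInt} (h : dt e.1 e.2 = 1) :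
    NN e = (ip e.1 e.2).natAbs ^ 2 + 1 := by
  have := NN_eq h
  zify
  rw [this, sq_abs]

lemma NN_ne {e : GaussianInt × GaussianInt} (h : dt e.1 e.2 = 1) : NN e ≠ 0 := by
  rw [NN_eq_nat h]; omega

lemma omega_le (m : ℕ) :
    ArithmeticFunction.cardDistinctFactors m ≤ ArithmeticFunction.cardFactors m := by
  rw [ArithmeticFunction.cardDistinctFactors_apply, ArithmeticFunction.cardFactors_apply]
  exact (List.dedup_sublist _).length_le

lemma exc_zero {m : ℕ} (hm : m ≠ 0) : exc m = 0 ↔ Squarefree m := by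
  rw [← ArithmeticFunction.cardDistinctFactors_eq_cardFactors_iff_squarefree hm]
  unfold exc
  have := omega_le m
  omega

lemma sedge_sub {X : ℝ} {e : GaussianInt × GaussianInt} (he : e ∈ sedge X) :
    e ∈ dedge X ∧ lam (NN e) = -1 := by
  classical
  simp only [sedge, edge, mem_filter, mem_product] at he
  obtain ⟨⟨⟨h1, h2⟩, h3, -⟩, h4⟩ := he
  refine ⟨mem_dedge.2 ⟨h1, h2, h3⟩, ?_⟩
  unfold NN
  rw [lam_mul (nm_pos (prim_ne_zero (mem_pball.1 h1).1)).ne'
    (nm_pos (prim_ne_zero (mem_pball.1 h2).1)).ne']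
  rcases lam_eq (nm e.1) with h5 | h5 <;> rcases lam_eq (nm e.2) with h6 | h6
  · exact absurd (h5.trans h6.symm) h4
  · rw [h5, h6]; norm_num
  · rw [h5, h6]; norm_num
  · exact absurd (h5.trans h6.symm) h4

/-- one step of the resolution -/
lemma res_step (hres : S_RES) (δ : ℝ) (hδ : 0 < δ) : ∃ (Q D X₀ : ℝ), 1 ≤ Q ∧ 1 ≤ D ∧
    ∀ X : ℝ, X₀ ≤ X → ∀ k : ℕ, ((Bk (k + 1) (-1) X).card : ℝ) ≤
      δ * X + D * ((Bk k (-1) (Q * X)).card : ℝ) := by
  classical
  obtain ⟨Q, D, X₀, hQ, h⟩ := hres δ hδ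
  refine ⟨Q, 2 * D + 1, X₀, hQ, by have : (0 : ℝ) ≤ D := Nat.cast_nonneg _
                                   linarith, fun X hX k => ?_⟩
  obtain ⟨E, F₁, F₂, hE, hF, hD⟩ := h X hX
  set S := Bk (k + 1) (-1) X with hS
  set T := Bk k (-1) (Q * X) with hT
  have hcov : S ⊆ E ∪ (((dedge X).filter (fun e => e ∉ E)).filter (fun e => F₁ e ∈ T) ∪
      ((dedge X).filter (fun e => e ∉ E)).filter (fun e => F₂ e ∈ T)) := by
    intro e he
    rw [hS, mem_Bk] at he
    obtain ⟨he1, he2, he3⟩ := he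
    by_cases hEe : e ∈ E
    · exact mem_union_left _ hEe
    · obtain ⟨f1, f2, f3, f4, f5⟩ := hF e he1 hEe
      rw [he3] at f3
      refine mem_union_right _ ?_
      simp only [mem_union, mem_filter]
      rw [hT, mem_Bk, mem_Bk]
      rcases lam_eq (NN (F₁ e)) with h6 | h6
      · right
        refine ⟨⟨he1, hEe⟩, f2, by omega, ?_⟩
        rw [h6, one_mul] at f3
        exact f3
      · left
        exact ⟨⟨he1, hEe⟩, f1, by omega, h6⟩
  have hfib : ∀ F : GaussianInt × GaussianInt → GaussianInt × GaussianInt,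
      (∀ f, ((dedge X).filter (fun e => e ∉ E ∧ F e = f)).card ≤ D) →
      ((((dedge X).filter (fun e => e ∉ E)).filter (fun e => F e ∈ T)).card : ℝ) ≤
        D * (T.card : ℝ) := by
    intro F hFf
    have : (((dedge X).filter (fun e => e ∉ E)).filter (fun e => F e ∈ T)).card ≤ D * T.card := by
      refine card_le_mul_card_image_of_maps_to (f := F) (t := T) ?_ D ?_
      · intro e he
        exact (mem_filter.1 he).2
      · intro f hf
        refine le_trans (card_le_card ?_) (hFf f)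
        intro e he
        simp only [mem_filter] at he ⊢
        exact ⟨he.1.1.1, he.1.1.2, he.2⟩
    exact_mod_cast this
  have h1 := hfib F₁ (fun f => (hD f).1)
  have h2 := hfib F₂ (fun f => (hD f).2)
  have h3 : (S.card : ℝ) ≤ E.card +
      ((((dedge X).filter (fun e => e ∉ E)).filter (fun e => F₁ e ∈ T)).card +
      (((dedge X).filter (fun e => e ∉ E)).filter (fun e => F₂ e ∈ T)).card) := by
    exact_mod_cast (card_le_card hcov).trans ((card_union_le _ _).trans
      (Nat.add_le_add_left (card_union_le _ _) _))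
  have hT0 : (0 : ℝ) ≤ T.card := Nat.cast_nonneg _
  linarith

/-- the iterated resolution -/
lemma res_iter (hres : S_RES) (k : ℕ) : ∀ δ : ℝ, 0 < δ → ∃ (Q D X₀ : ℝ), 1 ≤ Q ∧ 1 ≤ D ∧
    ∀ X : ℝ, X₀ ≤ X → ((Bk k (-1) X).card : ℝ) ≤ δ * X + D * ((Bk 0 (-1) (Q * X)).card : ℝ) := by
  induction k with
  | zero =>
    intro δ hδ
    refine ⟨1, 1, 0, le_rfl, le_rfl, fun X hX => ?_⟩
    rw [one_mul, one_mul]
    have : 0 ≤ δ * X := by positivity
    linarith
  | succ k ih =>
    intro δ hδ
    obtain ⟨Q, D, X₀, hQ, hD, h⟩ := res_step hres (δ / 2) (by linarith)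
    obtain ⟨Q', D', X₀', hQ', hD', h'⟩ := ih (δ / (2 * D * Q)) (by positivity)
    refine ⟨Q' * Q, D * D', max (max X₀ X₀') 0, by nlinarith, by nlinarith, fun X hX => ?_⟩
    have hX0 : X₀ ≤ X := (le_max_left _ _).trans ((le_max_left _ _).trans hX)
    have hX0' : X₀' ≤ X := (le_max_right _ _).trans ((le_max_left _ _).trans hX)
    have hXp : 0 ≤ X := (le_max_right _ _).trans hX
    have h1 := h X hX0 k
    have h2 := h' (Q * X) (by nlinarith)
    have h3 : D * ((Bk k (-1) (Q * X)).card : ℝ) ≤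
        D * (δ / (2 * D * Q) * (Q * X) + D' * ((Bk 0 (-1) (Q' * (Q * X))).card : ℝ)) :=
      mul_le_mul_of_nonneg_left h2 (by linarith)
    have h4 : D * (δ / (2 * D * Q) * (Q * X)) = δ / 2 * X := by
      field_simp
    rw [mul_assoc Q' Q X]
    nlinarith

/-- a positive proportion of squarefree pairs with sign `-1` -/
lemma bk_neg (hsc : S_SC) (hexct : S_EXCT) (hres : S_RES) :
    ∃ c X₀ : ℝ, 0 < c ∧ ∀ X : ℝ, X₀ ≤ X → c * X ≤ ((Bk 0 (-1) X).card : ℝ) := by
  classical
  obtain ⟨ε, hε, X₁, hsc⟩ := hsc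
  obtain ⟨k, X₂, hex⟩ := hexct (ε / 4) (by linarith)
  obtain ⟨Q, D, X₃, hQ, hD, hit⟩ := res_iter hres k (ε / 4) (by linarith)
  refine ⟨ε / (2 * D * Q), Q * max (max X₁ X₂) X₃, by positivity, fun X' hX' => ?_⟩
  obtain ⟨X, rfl⟩ : ∃ X : ℝ, X' = Q * X := ⟨X' / Q, by field_simp⟩
  have hX : max (max X₁ X₂) X₃ ≤ X := le_of_mul_le_mul_left hX' (by linarith)
  have hX1 : X₁ ≤ X := (le_max_left _ _).trans ((le_max_left _ _).trans hX)
  have hX2 : X₂ ≤ X := (le_max_right _ _).trans ((le_max_left _ _).trans hX)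
  have hX3 : X₃ ≤ X := (le_max_right _ _).trans hX
  have h1 := hsc X hX1
  have h2 := hex X hX2
  have h3 := hit X hX3
  have h4 : ((sedge X).card : ℝ) ≤ (((dedge X).filter (fun e => k < exc (NN e))).card : ℝ) +
      ((Bk k (-1) X).card : ℝ) := by
    have : sedge X ⊆ (dedge X).filter (fun e => k < exc (NN e)) ∪ Bk k (-1) X := by
      intro e he
      obtain ⟨h5, h6⟩ := sedge_sub he
      rw [mem_union, mem_filter, mem_Bk]
      by_cases h7 : k < exc (NN e)
      · exact Or.inl ⟨h5, h7⟩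
      · exact Or.inr ⟨h5, not_lt.1 h7, h6⟩
    exact_mod_cast (card_le_card this).trans (card_union_le _ _)
  have h5 : ε / 2 * X ≤ D * ((Bk 0 (-1) (Q * X)).card : ℝ) := by linarith
  have h6 : ε / (2 * D * Q) * (Q * X) = (ε / 2 * X) / D := by field_simp
  rw [h6, div_le_iff₀ (by linarith)]
  linarith

/-- a positive proportion of squarefree pairs with sign `+1` -/
lemma bk_pos (hneg : ∃ c X₀ : ℝ, 0 < c ∧ ∀ X : ℝ, X₀ ≤ X → c * X ≤ ((Bk 0 (-1) X).card : ℝ))
    (hres : S_RES) :
    ∃ c X₀ : ℝ, 0 < c ∧ ∀ X : ℝ, X₀ ≤ X → c * X ≤ ((Bk 0 1 X).card : ℝ) := by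
  classical
  obtain ⟨c, X₁, hc, hneg⟩ := hneg
  obtain ⟨Q, D, X₂, hQ, h⟩ := hres (c / 2) (by linarith)
  have hD0 : (0 : ℝ) ≤ D := Nat.cast_nonneg _
  refine ⟨c / (2 * (2 * D + 1) * Q), Q * max (max X₁ X₂) 0, by positivity, fun X' hX' => ?_⟩
  obtain ⟨X, rfl⟩ : ∃ X : ℝ, X' = Q * X := ⟨X' / Q, by field_simp⟩
  have hX : max (max X₁ X₂) 0 ≤ X := le_of_mul_le_mul_left hX' (by linarith)
  have hX1 : X₁ ≤ X := (le_max_left _ _).trans ((le_max_left _ _).trans hX)
  have hX2 : X₂ ≤ X := (le_max_right _ _).trans ((le_max_left _ _).trans hX)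
  have hX0 : 0 ≤ X := (le_max_right _ _).trans hX
  obtain ⟨E, F₁, F₂, hE, hF, hD⟩ := h X hX2
  set S := Bk 0 (-1) X with hS
  set T := Bk 0 1 (Q * X) with hT
  have hcov : S ⊆ E ∪ (((dedge X).filter (fun e => e ∉ E)).filter (fun e => F₁ e ∈ T) ∪
      ((dedge X).filter (fun e => e ∉ E)).filter (fun e => F₂ e ∈ T)) := by
    intro e he
    rw [hS, mem_Bk] at he
    obtain ⟨he1, he2, he3⟩ := he
    by_cases hEe : e ∈ E
    · exact mem_union_left _ hEe
    · obtain ⟨f1, f2, f3, f4, f5⟩ := hF e he1 hEe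
      rw [he3] at f3
      refine mem_union_right _ ?_
      simp only [mem_union, mem_filter]
      rw [hT, mem_Bk, mem_Bk]
      rcases lam_eq (NN (F₁ e)) with h6 | h6
      · left
        exact ⟨⟨he1, hEe⟩, f1, by omega, h6⟩
      · right
        refine ⟨⟨he1, hEe⟩, f2, by omega, ?_⟩
        rw [h6] at f3
        linarith
  have hfib : ∀ F : GaussianInt × GaussianInt → GaussianInt × GaussianInt,
      (∀ f, ((dedge X).filter (fun e => e ∉ E ∧ F e = f)).card ≤ D) →
      ((((dedge X).filter (fun e => e ∉ E)).filter (fun e => F e ∈ T)).card : ℝ) ≤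
        D * (T.card : ℝ) := by
    intro F hFf
    have : (((dedge X).filter (fun e => e ∉ E)).filter (fun e => F e ∈ T)).card ≤ D * T.card := by
      refine card_le_mul_card_image_of_maps_to (f := F) (t := T) ?_ D ?_
      · intro e he
        exact (mem_filter.1 he).2
      · intro f hf
        refine le_trans (card_le_card ?_) (hFf f)
        intro e he
        simp only [mem_filter] at he ⊢
        exact ⟨he.1.1.1, he.1.1.2, he.2⟩
    exact_mod_cast this
  have h1 := hfib F₁ (fun f => (hD f).1)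
  have h2 := hfib F₂ (fun f => (hD f).2)
  have h3 : (S.card : ℝ) ≤ E.card +
      ((((dedge X).filter (fun e => e ∉ E)).filter (fun e => F₁ e ∈ T)).card +
      (((dedge X).filter (fun e => e ∉ E)).filter (fun e => F₂ e ∈ T)).card) := by
    exact_mod_cast (card_le_card hcov).trans ((card_union_le _ _).trans
      (Nat.add_le_add_left (card_union_le _ _) _))
  have hT0 : (0 : ℝ) ≤ T.card := Nat.cast_nonneg _
  have h4 := hneg X hX1
  have h5 : c / 2 * X ≤ (2 * D + 1) * (T.card : ℝ) := by nlinarith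
  have h6 : c / (2 * (2 * D + 1) * Q) * (Q * X) = (c / 2 * X) / (2 * D + 1) := by field_simp
  rw [h6, div_le_iff₀ (by linarith)]
  linarith

/-- the number of divisors of a squarefree number -/
lemma card_div_le {m : ℕ} (hm : Squarefree m) : m.divisors.card ≤ 2 ^ m.primeFactors.card := by
  rw [Nat.card_divisors hm.ne_zero, ← prod_const]
  refine prod_le_prod' fun p _ => ?_
  have := hm.natFactorization_le_one p
  omega

/-- from pairs to integers -/
theorem count_of (hmult : S_MULT) (htyp : S_TYP) (hve : S_VE) (s : ℤ)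
    (h : ∃ c X₀ : ℝ, 0 < c ∧ ∀ X : ℝ, X₀ ≤ X → c * X ≤ ((Bk 0 s X).card : ℝ)) (ε : ℝ)
    (hε : 0 < ε) : ∃ N₀ : ℕ, ∀ N : ℕ, N₀ ≤ N →
    (N : ℝ) / Real.log N ^ (2 * Real.log 2 + ε) ≤
    ((((Icc 1 N).filter (fun n : ℕ => ArithmeticFunction.moebius (n ^ 2 + 1) = s)).card : ℕ) : ℝ)
    := by
  classical
  obtain ⟨c, X₁, hc, hB⟩ := h
  obtain ⟨C, hC, hve⟩ := hve
  set κ : ℝ := min 1 (c / (8 * C)) with hκ
  have hκ0 : 0 < κ := lt_min one_pos (by positivity)
  have hκ1 : κ ≤ 1 := min_le_left _ _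
  have hκ2 : C * κ ≤ c / 8 := by
    have : κ ≤ c / (8 * C) := min_le_right _ _
    calc C * κ ≤ C * (c / (8 * C)) := mul_le_mul_of_nonneg_left this hC.le
      _ = c / 8 := by field_simp
  obtain ⟨X₂, htyp⟩ := htyp (ε / 4) (c * κ / (8 * C)) (by linarith) (by positivity)
  set g : ℝ := 2 * (1 + ε / 4) * Real.log 2 with hg
  have hlog2 : Real.log 2 < 0.6931471808 := Real.log_two_lt_d9
  have hlog2p : 0 < Real.log 2 := Real.log_pos (by norm_num)
  have hgap : 0 < 2 * Real.log 2 + ε - g := by rw [hg]; nlinarith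
  -- the bound for the number of divisors
  have hmain : ∀ N : ℕ, X₁ ≤ N → X₂ ≤ N → 3 ≤ N → 16 / c ≤ N →
      c / 2 * N ≤ 8 * Real.log N ^ g * ((((Icc 1 N).filter
        (fun n : ℕ => ArithmeticFunction.moebius (n ^ 2 + 1) = s)).card : ℕ) : ℝ) := by
    intro N hN1 hN2 hN3 hN4
    have hNpos : (0 : ℝ) < N := by exact_mod_cast (by omega : 0 < N)
    have hN3' : (3 : ℝ) ≤ N := by exact_mod_cast hN3
    set V := (pball N).filter (fun z =>
      (1 + ε / 4) * Real.log (Real.log N) < (((nm z).primeFactors.card : ℕ) : ℝ)) with hV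
    have hVc : (V.card : ℝ) ≤ c * κ / (8 * C) * N := htyp N hN2
    have hVE := hve κ N V hκ0 hκ1 (by linarith)
    have hVi : ((V ∩ pball N).card : ℝ) ≤ c * κ / (8 * C) * N :=
      le_trans (by exact_mod_cast card_le_card inter_subset_left) hVc
    set S := (Bk 0 s N).filter (fun e => ¬ (e.1 ∈ V ∨ e.2 ∈ V)) with hS
    set S' := S.filter (fun e => ip e.1 e.2 ≠ 0) with hS'
    have hS1 : ((Bk 0 s N).card : ℝ) ≤
        (((dedge N).filter (fun e => e.1 ∈ V ∨ e.2 ∈ V)).card : ℝ) + S.card := by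
      have : Bk 0 s N ⊆ (dedge N).filter (fun e => e.1 ∈ V ∨ e.2 ∈ V) ∪ S := by
        intro e he
        by_cases h7 : e.1 ∈ V ∨ e.2 ∈ V
        · exact mem_union_left _ (mem_filter.2 ⟨(mem_Bk.1 he).1, h7⟩)
        · exact mem_union_right _ (mem_filter.2 ⟨he, h7⟩)
      exact_mod_cast (card_le_card this).trans (card_union_le _ _)
    have hS2 : (S.card : ℝ) ≤ 4 + S'.card := by
      have h1 : S ⊆ S.filter (fun e => ip e.1 e.2 = 0) ∪ S' := by
        intro e he
        by_cases h7 : ip e.1 e.2 = 0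
        · exact mem_union_left _ (mem_filter.2 ⟨he, h7⟩)
        · exact mem_union_right _ (mem_filter.2 ⟨he, h7⟩)
      have h2 := hmult 0 (S.filter (fun e => ip e.1 e.2 = 0)) (fun e he => by
        rw [mem_filter] at he
        refine ⟨?_, he.2⟩
        have := (mem_filter.1 he.1).1
        exact (mem_dedge.1 (mem_Bk.1 this).1).2.2)
      have h3 : 4 * ((0 : ℤ) ^ 2 + 1).natAbs.divisors.card = 4 := by simp
      rw [h3] at h2
      have h4 := (card_le_card h1).trans (card_union_le _ _)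
      exact_mod_cast h4.trans (Nat.add_le_add_right h2 _)
    have hVE2 : C * (κ * N + ((V ∩ pball N).card : ℝ) / κ) ≤ c / 4 * N := by
      have h1 : ((V ∩ pball N).card : ℝ) / κ ≤ c / (8 * C) * N := by
        rw [div_le_iff₀ hκ0]
        calc ((V ∩ pball N).card : ℝ) ≤ c * κ / (8 * C) * N := hVi
          _ = c / (8 * C) * N * κ := by ring
      calc C * (κ * N + ((V ∩ pball N).card : ℝ) / κ) ≤ C * (κ * N + c / (8 * C) * N) := by
            apply mul_le_mul_of_nonneg_left _ hC.le
            linarith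
        _ = C * κ * N + c / 8 * N := by field_simp
        _ ≤ c / 8 * N + c / 8 * N := by nlinarith
        _ = c / 4 * N := by ring
    have hN5 : 16 ≤ c * N := by
      rw [div_le_iff₀ hc] at hN4
      linarith
    have hS3 : c / 2 * N ≤ S'.card := by
      have := hB N hN1
      linarith
    refine hS3.trans ?_
    set T := (Icc 1 N).filter (fun n : ℕ => ArithmeticFunction.moebius (n ^ 2 + 1) = s) with hT
    have hmaps : ∀ e ∈ S', (ip e.1 e.2).natAbs ∈ T := by
      intro e he
      rw [hS', mem_filter, hS, mem_filter, mem_Bk] at he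
      obtain ⟨⟨⟨he1, he2, he3⟩, -⟩, he4⟩ := he
      obtain ⟨m1, m2, m3⟩ := mem_dedge.1 he1
      rw [hT, mem_filter, Finset.mem_Icc]
      have hnn := NN_eq_nat m3
      refine ⟨⟨Int.natAbs_pos.2 he4, ?_⟩, ?_⟩
      · have h1 : (nm e.1 : ℝ) ≤ N := (mem_pball.1 m1).2
        have h2 : (nm e.2 : ℝ) ≤ N := (mem_pball.1 m2).2
        have h1' : nm e.1 ≤ N := by exact_mod_cast h1
        have h2' : nm e.2 ≤ N := by exact_mod_cast h2
        have h3 : NN e ≤ N ^ 2 := by
          unfold NN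
          rw [pow_two]
          exact Nat.mul_le_mul h1' h2'
        rw [hnn] at h3
        have h4 : (ip e.1 e.2).natAbs ^ 2 ≤ N ^ 2 := by omega
        exact (Nat.pow_le_pow_iff_left (by norm_num)).1 h4
      · rw [← hnn]
        have hsq : Squarefree (NN e) := (exc_zero (NN_ne m3)).1 (by omega)
        rw [ArithmeticFunction.moebius_apply_of_squarefree hsq]
        exact he3
    have hfib : ∀ n ∈ T, ((S'.filter (fun e => (ip e.1 e.2).natAbs = n)).card : ℝ) ≤
        8 * Real.log N ^ g := by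
      intro n _
      rcases (S'.filter (fun e => (ip e.1 e.2).natAbs = n)).eq_empty_or_nonempty with h0 | h0
      · rw [h0, card_empty, Nat.cast_zero]
        have : 0 ≤ Real.log N := Real.log_nonneg (by linarith)
        positivity
      · obtain ⟨e₀, he₀⟩ := h0
        rw [mem_filter, hS', mem_filter, hS, mem_filter, mem_Bk] at he₀
        obtain ⟨⟨⟨⟨he1, he2, he3⟩, he5⟩, he4⟩, he6⟩ := he₀
        obtain ⟨m1, m2, m3⟩ := mem_dedge.1 he1
        have hsq : Squarefree (NN e₀) := (exc_zero (NN_ne m3)).1 (by omega)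
        have hnn := NN_eq_nat m3
        rw [he6] at hnn
        have hω : (((NN e₀).primeFactors.card : ℕ) : ℝ) ≤
            2 * (1 + ε / 4) * Real.log (Real.log N) := by
          have h1 : ¬ e₀.1 ∈ V := fun hh => he5 (Or.inl hh)
          have h2 : ¬ e₀.2 ∈ V := fun hh => he5 (Or.inr hh)
          rw [hV, mem_filter, not_and, not_lt] at h1 h2
          have h1 := h1 m1
          have h2 := h2 m2
          have h3 : (NN e₀).primeFactors.card ≤
              (nm e₀.1).primeFactors.card + (nm e₀.2).primeFactors.card := by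
            unfold NN
            rw [Nat.primeFactors_mul (nm_pos (prim_ne_zero (mem_pball.1 m1).1)).ne'
              (nm_pos (prim_ne_zero (mem_pball.1 m2).1)).ne']
            exact card_union_le _ _
          have h3' : (((NN e₀).primeFactors.card : ℕ) : ℝ) ≤
              (nm e₀.1).primeFactors.card + (nm e₀.2).primeFactors.card := by exact_mod_cast h3
          linarith
        have hdiv : (((NN e₀).divisors.card : ℕ) : ℝ) ≤ Real.log N ^ g := by
          have h1 := card_div_le hsq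
          have h2 : (((NN e₀).divisors.card : ℕ) : ℝ) ≤ (2 : ℝ) ^ ((NN e₀).primeFactors.card) := by
            exact_mod_cast h1
          have hlogpos : 0 < Real.log N := Real.log_pos (by linarith)
          calc (((NN e₀).divisors.card : ℕ) : ℝ) ≤ (2 : ℝ) ^ ((NN e₀).primeFactors.card) := h2
            _ = (2 : ℝ) ^ (((NN e₀).primeFactors.card : ℕ) : ℝ) := (Real.rpow_natCast _ _).symm
            _ ≤ (2 : ℝ) ^ (2 * (1 + ε / 4) * Real.log (Real.log N)) :=
                Real.rpow_le_rpow_of_exponent_le (by norm_num) hω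
            _ = Real.log N ^ g := by
                rw [Real.rpow_def_of_pos (by norm_num), Real.rpow_def_of_pos hlogpos, hg]
                congr 1
                ring
        have hsub : S'.filter (fun e => (ip e.1 e.2).natAbs = n) ⊆
            (S'.filter (fun e => ip e.1 e.2 = n)) ∪ (S'.filter (fun e => ip e.1 e.2 = -(n : ℤ))) := by
          intro e he
          obtain ⟨he1, he2⟩ := mem_filter.1 he
          rcases Int.natAbs_eq (ip e.1 e.2) with h7 | h7
          · rw [he2] at h7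
            exact mem_union_left _ (mem_filter.2 ⟨he1, h7⟩)
          · rw [he2] at h7
            exact mem_union_right _ (mem_filter.2 ⟨he1, h7⟩)
        have hdet : ∀ e ∈ S', dt e.1 e.2 = 1 := by
          intro e he
          rw [hS', mem_filter, hS, mem_filter, mem_Bk] at he
          exact (mem_dedge.1 he.1.1.1).2.2
        have hc1 := hmult n (S'.filter (fun e => ip e.1 e.2 = n)) (fun e he => by
          rw [mem_filter] at he
          exact ⟨hdet e he.1, he.2⟩)
        have hc2 := hmult (-(n : ℤ)) (S'.filter (fun e => ip e.1 e.2 = -(n : ℤ))) (fun e he => by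
          rw [mem_filter] at he
          exact ⟨hdet e he.1, he.2⟩)
        have hn1 : ((n : ℤ) ^ 2 + 1).natAbs = NN e₀ := by
          rw [hnn]
          zify
          rw [abs_of_nonneg (by positivity)]
        have hn2 : ((-(n : ℤ)) ^ 2 + 1).natAbs = NN e₀ := by
          rw [neg_sq, hn1]
        rw [hn1] at hc1
        rw [hn2] at hc2
        have h8 : ((S'.filter (fun e => (ip e.1 e.2).natAbs = n)).card : ℝ) ≤
            8 * (((NN e₀).divisors.card : ℕ) : ℝ) := by
          have := (card_le_card hsub).trans ((card_union_le _ _).trans (Nat.add_le_add hc1 hc2))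
          have h9 : (S'.filter (fun e => (ip e.1 e.2).natAbs = n)).card ≤
            8 * (NN e₀).divisors.card := by omega
          exact_mod_cast h9
        linarith
    have hsum : (S'.card : ℝ) =
        ∑ n ∈ T, ((S'.filter (fun e => (ip e.1 e.2).natAbs = n)).card : ℝ) := by
      have := card_eq_sum_card_fiberwise (s := S') (t := T)
        (f := fun e : GaussianInt × GaussianInt => (ip e.1 e.2).natAbs) hmaps
      rw [this]
      push_cast
      rfl
    rw [hsum]
    refine (sum_le_sum hfib).trans ?_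
    rw [sum_const, nsmul_eq_mul]
    linarith
  -- conclusion
  have hev : ∀ᶠ x : ℝ in atTop, 16 / c ≤ Real.log x ^ (2 * Real.log 2 + ε - g) :=
    ((tendsto_rpow_atTop hgap).comp Real.tendsto_log_atTop).eventually_ge_atTop _
  obtain ⟨x₀, hx₀⟩ := eventually_atTop.1 hev
  refine ⟨⌈max (max X₁ X₂) (max x₀ (16 / c))⌉₊ + 3, fun N hN => ?_⟩
  have hN' : max (max X₁ X₂) (max x₀ (16 / c)) ≤ (N : ℝ) := by
    refine (Nat.le_ceil _).trans ?_
    exact_mod_cast (by omega : ⌈max (max X₁ X₂) (max x₀ (16 / c))⌉₊ ≤ N)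
  have h1 : X₁ ≤ (N : ℝ) := (le_max_left _ _).trans ((le_max_left _ _).trans hN')
  have h2 : X₂ ≤ (N : ℝ) := (le_max_right _ _).trans ((le_max_left _ _).trans hN')
  have h3 : x₀ ≤ (N : ℝ) := (le_max_left _ _).trans ((le_max_right _ _).trans hN')
  have h4 : 16 / c ≤ (N : ℝ) := (le_max_right _ _).trans ((le_max_right _ _).trans hN')
  have hN3 : 3 ≤ N := by omega
  have h5 := hmain N h1 h2 hN3 h4
  have h6 := hx₀ N h3
  have hNr : (3 : ℝ) ≤ N := by exact_mod_cast hN3
  have hlogpos : 0 < Real.log N := Real.log_pos (by linarith)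
  generalize ((((Icc 1 N).filter
        (fun n : ℕ => ArithmeticFunction.moebius (n ^ 2 + 1) = s)).card : ℕ) : ℝ) = t at h5 ⊢
  have hgp : 0 < Real.log N ^ g := Real.rpow_pos_of_pos hlogpos _
  have hsplit : Real.log N ^ (2 * Real.log 2 + ε) =
      Real.log N ^ (2 * Real.log 2 + ε - g) * Real.log N ^ g := by
    rw [← Real.rpow_add hlogpos]
    congr 1
    ring
  rw [div_le_iff₀ (Real.rpow_pos_of_pos hlogpos _), hsplit]
  have ht : 0 ≤ t := by
    by_contra hneg
    push Not at hneg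
    have : 0 < c / 2 * N := by positivity
    nlinarith
  have h7 : (N : ℝ) ≤ 16 / c * (Real.log N ^ g * t) := by
    rw [div_mul_eq_mul_div, le_div_iff₀ hc]
    linarith
  calc (N : ℝ) ≤ 16 / c * (Real.log N ^ g * t) := h7
    _ ≤ Real.log N ^ (2 * Real.log 2 + ε - g) * (Real.log N ^ g * t) := by
        apply mul_le_mul_of_nonneg_right h6 (by positivity)
    _ = t * (Real.log N ^ (2 * Real.log 2 + ε - g) * Real.log N ^ g) := by ring

theorem t1_of (hsc : S_SC) (hres : S_RES) (htyp : S_TYP) (hmult : S_MULT) (hexct : S_EXCT)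
    (hve : S_VE) (e : ℤ) (he : e = 1 ∨ e = -1) (ε : ℝ) (hε : 0 < ε) :
    ∃ N₀ : ℕ, ∀ N : ℕ, N₀ ≤ N → (N : ℝ) / Real.log N ^ (2 * Real.log 2 + ε) ≤
    ((((Icc 1 N).filter (fun n : ℕ => ArithmeticFunction.moebius (n ^ 2 + 1) = e)).card : ℕ) : ℝ)
    := by
  have hneg := bk_neg hsc hexct hres
  rcases he with rfl | rfl
  · exact count_of hmult htyp hve 1 (bk_pos hneg hres) ε hε
  · exact count_of hmult htyp hve (-1) hneg ε hε

end Pool.Agent.W78.GM
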